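import Pool.Agent.NNO.CharP
import Pool.Agent.NIPFields.KSW

/-!
# NIP function fields have characteristic zero
-/

set_option autoImplicit false

namespace Pool.Agent.NNO

open FirstOrder FirstOrder.Language FirstOrder.Ring Pool.Agent.NIPFields

universe u

/-- An NIP field which is finitely generated and not algebraic over a subfield has characteristic
zero (a consequence of the theorem of Kaplan, Scanlon and Wagner). -/
theorem charZero_of_fg {L : Type u} [Field L] [CompatibleRing L] (hL : NIP L) (F : Subfield L)
    (S : Finset L) (hS : Subfield.closure ((F : Set L) ∪ (S : Set L)) = ⊤)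
    (hx : ∃ x : L, Transcendental F x) : CharZero L := by
  obtain ⟨p, hp⟩ := CharP.exists L
  rcases CharP.char_is_prime_or_zero L p with hpp | rfl
  · exfalso
    have hfact : Fact p.Prime := ⟨hpp⟩
    obtain ⟨x, hx⟩ := hx
    have hinf : Infinite L := by
      by_contra h
      have : Finite L := not_infinite_iff_finite.1 h
      have : Module.Finite F L := Module.Finite.of_finite
      exact hx (Algebra.IsAlgebraic.isAlgebraic x)
    have has : ∀ w : L, ∃ y : L, y ^ p - y = w := fun w =>
      hL.artinSchreier (Module.finBasis L L) w
    let A := Algebra.adjoin F (S : Set L)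
    have hnoe : IsNoetherianRing A := isNoetherianRing_of_fg (Subalgebra.fg_adjoin_finset S)
    have hsub : ∀ y ∈ Subring.closure ((F : Set L) ∪ (S : Set L)), y ∈ A := by
      intro y hy
      have h1 : Subring.closure ((F : Set L) ∪ (S : Set L)) ≤ A.toSubring := by
        rw [Subring.closure_le]
        rintro z (hz | hz)
        · exact A.algebraMap_mem ⟨z, hz⟩
        · exact Algebra.subset_adjoin hz
      exact h1 hy
    have hdiv : ∀ z : L, ∃ y ∈ A, ∃ w ∈ A, y / w = z := by
      intro z
      have hz : z ∈ Subfield.closure ((F : Set L) ∪ (S : Set L)) := by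
        rw [hS]
        trivial
      obtain ⟨y, hy, w, hw, h⟩ := Subfield.mem_closure_iff.1 hz
      exact ⟨y, hsub y hy, w, hsub w hw, h⟩
    have hfr : IsFractionRing A L := by
      refine IsFractionRing.of_field A L fun z => ?_
      obtain ⟨y, hy, w, hw, h⟩ := hdiv z
      exact ⟨⟨y, hy⟩, ⟨w, hw⟩, h.symm⟩
    have hfield : IsField A := isField_of_as (A := A) (L := L) p hpp has
    have htop : A = ⊤ := by
      rw [eq_top_iff]
      intro z _
      obtain ⟨y, hy, w, hw, rfl⟩ := hdiv z
      by_cases hw0 : w = 0
      · rw [hw0, div_zero]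
        exact A.zero_mem
      · obtain ⟨v, hv⟩ := hfield.mul_inv_cancel (a := ⟨w, hw⟩)
          (fun h => hw0 (congrArg Subtype.val h))
        have hv' : w * (v : L) = 1 := congrArg Subtype.val hv
        have hwi : w⁻¹ ∈ A := by
          rw [← eq_inv_of_mul_eq_one_right hv']
          exact v.2
        rw [div_eq_mul_inv]
        exact A.mul_mem hy hwi
    have hft : Algebra.FiniteType F L := ⟨by
      rw [← htop]
      exact Subalgebra.fg_adjoin_finset S⟩
    have : Module.Finite F L := finite_of_finite_type_of_isJacobsonRing F L
    exact hx (Algebra.IsAlgebraic.isAlgebraic x)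
  · exact CharP.charP_to_charZero L

end Pool.Agent.NNO
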