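import Pool.Agent.NNO.Trans

/-!
# Bounded degrees and finite extensions of noetherian domains

`exists_max`: if `ℓ ^ k` divides no degree of a finite subextension of `L / Q`, then there is a finite
`M₀ / Q` such that the degrees of the finite subextensions of `L / M₀` are prime to `ℓ`.
`exists_ext`: a finite extension of the fraction field of a noetherian domain of dimension at least `2`
is the fraction field of such a domain.
-/

set_option autoImplicit false

namespace Pool.Agent.NNO

universe u

theorem exists_max {Q L : Type u} [Field Q] [Field L] [Algebra Q L] {ℓ : ℕ}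
    (hb : ∃ k, ∀ M : IntermediateField Q L, FiniteDimensional Q M →
      ¬ ℓ ^ k ∣ Module.finrank Q M) :
    ∃ M₀ : IntermediateField Q L, FiniteDimensional Q M₀ ∧
      ∀ M : IntermediateField M₀ L, FiniteDimensional M₀ M → ¬ ℓ ∣ Module.finrank M₀ M := by
  classical
  obtain ⟨k, hk⟩ := hb
  by_contra hcon
  push Not at hcon
  have key : ∀ j : ℕ, ∃ M : IntermediateField Q L, FiniteDimensional Q M ∧
      ℓ ^ j ∣ Module.finrank Q M := by
    intro j
    induction j with
    | zero =>
      refine ⟨⊥, inferInstance, ?_⟩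
      rw [pow_zero]
      exact one_dvd _
    | succ j ih =>
      obtain ⟨M₀, h1, h2⟩ := ih
      obtain ⟨M, h3, h4⟩ := hcon M₀ h1
      have e : (M.restrictScalars Q : Type u) = M := rfl
      have h5 : Module.finrank Q M₀ * Module.finrank M₀ M = Module.finrank Q M :=
        Module.finrank_mul_finrank Q M₀ M
      have h6 : FiniteDimensional Q M := Module.Finite.trans (R := Q) M₀ M
      refine ⟨M.restrictScalars Q, h6, ?_⟩
      change ℓ ^ (j + 1) ∣ Module.finrank Q M
      rw [← h5, pow_succ]
      exact mul_dvd_mul h2 h4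
  obtain ⟨M, h1, h2⟩ := key k
  exact hk M h1 h2

theorem exists_ext {A Q M : Type u} [CommRing A] [IsDomain A] [IsNoetherianRing A] [Field Q]
    [Algebra A Q] [IsFractionRing A Q] [Field M] [Algebra Q M] [FiniteDimensional Q M]
    (p₁ p₂ : Ideal A) [p₁.IsPrime] [p₂.IsPrime] (h1 : p₁ ≠ ⊥) (h2 : p₁ < p₂) :
    ∃ (A' : Type u) (_ : CommRing A') (_ : IsDomain A') (_ : IsNoetherianRing A')
      (_ : Algebra A' M) (_ : IsFractionRing A' M) (q₁ q₂ : Ideal A'),
      q₁.IsPrime ∧ q₂.IsPrime ∧ q₁ ≠ ⊥ ∧ q₁ < q₂ := by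
  classical
  let _ : Algebra A M := ((algebraMap Q M).comp (algebraMap A Q)).toAlgebra
  have htow : IsScalarTower A Q M := IsScalarTower.of_algebraMap_eq fun x => rfl
  have hinj : Function.Injective (algebraMap A M) :=
    (algebraMap Q M).injective.comp (IsFractionRing.injective A Q)
  obtain ⟨s, b, hb⟩ := FiniteDimensional.exists_is_basis_integral A Q M
  let S : Finset M := Finset.univ.image b
  have hS : ∀ x ∈ S, IsIntegral A x := by
    intro x hx
    obtain ⟨i, -, rfl⟩ := Finset.mem_image.1 hx
    exact hb i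
  let A' := Algebra.adjoin A (S : Set M)
  have hint : Algebra.IsIntegral A A' := Algebra.IsIntegral.adjoin hS
  have hnoe : IsNoetherianRing A' := isNoetherianRing_of_fg (Subalgebra.fg_adjoin_finset S)
  have hinj' : Function.Injective (algebraMap A A') := by
    intro x y hxy
    apply hinj
    have := congrArg (algebraMap A' M) hxy
    rwa [← IsScalarTower.algebraMap_apply, ← IsScalarTower.algebraMap_apply] at this
  have hfrac : IsFractionRing A' M := by
    refine IsFractionRing.of_field A' M fun z => ?_
    obtain ⟨d, hd⟩ := IsLocalization.exist_integer_multiples_of_finset (nonZeroDivisors A)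
      (Finset.univ.image fun i => b.repr z i)
    have hd0 : (d : A) ≠ 0 := nonZeroDivisors.ne_zero d.2
    have hdM : algebraMap A M d ≠ 0 := by
      rw [Ne, map_eq_zero_iff _ hinj]
      exact hd0
    have hmem : algebraMap A M d * z ∈ A' := by
      have e : algebraMap A M d * z = ∑ i, ((d : A) • b.repr z i) • b i := by
        conv_lhs => rw [← b.sum_repr z]
        rw [Finset.mul_sum]
        refine Finset.sum_congr rfl fun i _ => ?_
        rw [Algebra.smul_def, Algebra.smul_def, Algebra.smul_def, map_mul,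
          ← IsScalarTower.algebraMap_apply, mul_assoc]
      rw [e]
      refine Subalgebra.sum_mem _ fun i _ => ?_
      obtain ⟨c, hc⟩ := hd (b.repr z i) (Finset.mem_image.2 ⟨i, Finset.mem_univ _, rfl⟩)
      rw [← hc, Algebra.smul_def, ← IsScalarTower.algebraMap_apply]
      exact Subalgebra.mul_mem _ (Subalgebra.algebraMap_mem _ c)
        (Algebra.subset_adjoin (Finset.mem_coe.2 (Finset.mem_image.2 ⟨i, Finset.mem_univ _, rfl⟩)))
    refine ⟨⟨_, hmem⟩, ⟨algebraMap A M d, Subalgebra.algebraMap_mem _ _⟩, ?_⟩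
    change z = algebraMap A M d * z / algebraMap A M d
    rw [mul_div_cancel_left₀ _ hdM]
  have hker : ∀ (q : Ideal A'), (⊥ : Ideal A').comap (algebraMap A A') = ⊥ := fun q =>
    Ideal.comap_bot_of_injective _ hinj'
  obtain ⟨q₁, -, hq₁, e₁⟩ := Ideal.exists_ideal_over_prime_of_isIntegral p₁ (⊥ : Ideal A')
    (by rw [hker ⊥]; exact bot_le)
  obtain ⟨q₂, hle, hq₂, e₂⟩ := Ideal.exists_ideal_over_prime_of_isIntegral p₂ q₁
    (by rw [e₁]; exact h2.le)
  refine ⟨A', inferInstance, inferInstance, hnoe, inferInstance, hfrac, q₁, q₂, hq₁, hq₂, ?_,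
    lt_of_le_of_ne hle ?_⟩
  · intro h
    apply h1
    rw [← e₁, h, hker ⊥]
  · intro h
    apply h2.ne
    rw [← e₁, ← e₂, h]

end Pool.Agent.NNO
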