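import Pool.Agent.NNO.Main
import Pool.Agent.NNO.Ext

/-!
# NIP fields and noetherian domains: the theorem on the dimension
-/

set_option autoImplicit false

namespace Pool.Agent.NNO

open FirstOrder FirstOrder.Language FirstOrder.Ring Pool.Agent.NIPFields

universe u

/-- The pattern for algebraic extensions with bounded `ℓ`-part of the degree. -/
theorem shatE_of_dim_ext {Q L : Type u} [Field Q] [Field L] [Algebra Q L]
    [Algebra.IsAlgebraic Q L] {ℓ : ℕ} (hℓ : ℓ.Prime) (hℓ0 : (ℓ : Q) ≠ 0)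
    (hb : ∃ k, ∀ M : IntermediateField Q L, FiniteDimensional Q M → ¬ ℓ ^ k ∣ Module.finrank Q M)
    {A : Type u} [CommRing A] [IsDomain A] [IsNoetherianRing A] [Algebra A Q]
    [IsFractionRing A Q] (p₁ p₂ : Ideal A) [p₁.IsPrime] [p₂.IsPrime] (h1 : p₁ ≠ ⊥)
    (h2 : p₁ < p₂) (n : ℕ) : ShatE ℓ L n := by
  obtain ⟨M₀, hfd, hM₀⟩ := exists_max hb
  obtain ⟨B, _, _, _, _, _, P₁, P₂, hP₁, hP₂, h3, h4⟩ :=
    exists_ext (A := A) (Q := Q) (M := M₀) p₁ p₂ h1 h2
  have hℓ1 : (ℓ : M₀) ≠ 0 := by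
    intro h
    apply hℓ0
    apply (algebraMap Q M₀).injective
    rw [map_natCast, h, map_zero]
  have : Algebra.IsAlgebraic M₀ L := Algebra.IsAlgebraic.tower_top (K := Q) M₀
  exact shatE_ext hℓ hM₀ (shatE_of_dim (L := M₀) hℓ hℓ1 P₁ P₂ h3 h4 n)

/-- A subring is a domain with fraction field the subfield it generates. -/
theorem isFractionRing_closure {L : Type u} [Field L] (A : Subring L) :
    ∃ (_ : Algebra A (Subfield.closure (A : Set L))),
      IsFractionRing A (Subfield.closure (A : Set L)) := by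
  let f : A →+* Subfield.closure (A : Set L) :=
    Subring.inclusion (T := (Subfield.closure (A : Set L)).toSubring)
      (fun x hx => Subfield.subset_closure hx)
  let _ : Algebra A (Subfield.closure (A : Set L)) := f.toAlgebra
  have hinj : Function.Injective f := fun x y h => by
    have := congrArg (fun z : Subfield.closure (A : Set L) => (z : L)) h
    exact Subtype.ext this
  refine ⟨f.toAlgebra, ?_⟩
  have : FaithfulSMul A (Subfield.closure (A : Set L)) :=
    (faithfulSMul_iff_algebraMap_injective _ _).2 hinj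
  refine IsFractionRing.of_field A _ fun z => ?_
  obtain ⟨y, hy, w, hw, hz⟩ := Subfield.mem_closure_iff.1 z.2
  rw [Subring.closure_eq] at hy hw
  exact ⟨⟨y, hy⟩, ⟨w, hw⟩, Subtype.ext hz.symm⟩

/-- A chain of primes from the dimension. -/
theorem exists_chain {A : Type u} [CommRing A] [IsDomain A] (h : 1 < ringKrullDim A) :
    ∃ p₁ p₂ : Ideal A, p₁.IsPrime ∧ p₂.IsPrime ∧ p₁ ≠ ⊥ ∧ p₁ < p₂ := by
  have h2 : ((2 : ℕ) : WithBot ℕ∞) ≤ ringKrullDim A := by
    obtain ⟨m, hm⟩ := WithBot.ne_bot_iff_exists.1 (ne_bot_of_gt h)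
    rw [← hm] at h ⊢
    have h3 : (1 : ℕ∞) < m := by exact_mod_cast h
    have h4 : (1 : ℕ∞) + 1 ≤ m := Order.add_one_le_of_lt h3
    rw [one_add_one_eq_two] at h4
    exact WithBot.coe_le_coe.2 h4
  obtain ⟨s, hs⟩ := Order.le_krullDim_iff.1 h2
  refine ⟨(s ⟨1, by omega⟩).asIdeal, (s ⟨2, by omega⟩).asIdeal, (s _).isPrime, (s _).isPrime,
    ?_, ?_⟩
  · intro h0
    have h3 : s ⟨0, by omega⟩ < s ⟨1, by omega⟩ := s.strictMono (by
      rw [Fin.lt_def]; simp)
    have h4 : (s ⟨0, by omega⟩).asIdeal < (s ⟨1, by omega⟩).asIdeal := h3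
    rw [h0] at h4
    exact not_lt_bot h4
  · exact s.strictMono (by rw [Fin.lt_def]; simp)

/-- The theorem for the hand-in. -/
theorem no_dim_two {K : Type u} [Field K] [CompatibleRing K] (hK : NIP K) {L : Type u} [Field L]
    [Algebra K L] [FiniteDimensional K L] (A : Subring L) [IsNoetherianRing A] {ℓ k : ℕ}
    (hℓ : ℓ.Prime) (hℓ0 : (ℓ : K) ≠ 0) [Algebra.IsAlgebraic (Subfield.closure (A : Set L)) L]
    (hk : ∀ M : IntermediateField (Subfield.closure (A : Set L)) L,
      FiniteDimensional (Subfield.closure (A : Set L)) M →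
        ¬ ℓ ^ k ∣ Module.finrank (Subfield.closure (A : Set L)) M) : ¬ 1 < ringKrullDim A := by
  intro h
  obtain ⟨p₁, p₂, hp₁, hp₂, h1, h2⟩ := exists_chain h
  obtain ⟨_, _⟩ := isFractionRing_closure A
  let _ : CompatibleRing L := compatibleRingOfRing L
  have hL : NIP L := hK.finite (Module.finBasis K L)
  have hℓL : (ℓ : L) ≠ 0 := by
    intro h
    apply hℓ0
    apply (algebraMap K L).injective
    rw [map_natCast, h, map_zero]
  have hℓQ : (ℓ : Subfield.closure (A : Set L)) ≠ 0 := by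
    intro h
    apply hℓL
    have := congrArg (fun z : Subfield.closure (A : Set L) => (z : L)) h
    simpa using this
  obtain ⟨n, hn⟩ := hL.exists_not_shatE ℓ
  exact hn (shatE_of_dim_ext (Q := Subfield.closure (A : Set L)) hℓ hℓQ ⟨k, hk⟩ p₁ p₂ h1 h2 n)

end Pool.Agent.NNO
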