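import Pool.Agent.NNO.XB

/-!
# Dedekind domains: the residue field (package NNO-Ded)
-/

set_option autoImplicit false

namespace Pool.Agent.NNO

universe u

/-- For a domain with fraction field `L` every element is a fraction. PROOF. `S = {1}`,
`IsFractionRing.div_surjective`/`IsLocalization.mk'_surjective`. -/
theorem finOver_algebraMap {A L : Type u} [CommRing A] [IsDomain A] [Field L] [Algebra A L]
    [IsFractionRing A L] : FinOver (algebraMap A L) := by
  refine ⟨{1}, fun x => ?_⟩
  obtain ⟨a, s, hs, rfl⟩ := IsFractionRing.div_surjective (A := A) x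
  have hs0 : algebraMap A L s ≠ 0 :=
    IsFractionRing.to_map_ne_zero_of_mem_nonZeroDivisors hs
  refine ⟨s, fun _ => a, hs0, ?_⟩
  rw [Finset.sum_singleton, mul_one, mul_div_cancel₀ _ hs0]

/-- Elements of `V` are fractions with denominators outside `q`. -/
private theorem exists_frac {A L : Type u} [CommRing A] [IsDedekindDomain A] [Field L]
    [Algebra A L] [IsFractionRing A L] (q : Ideal A) [q.IsPrime] (hq : q ≠ ⊥)
    (V : ValuationSubring L) (hV : Dmt (algebraMap A L) q V) (x : L) (hx : x ∈ V) :
    ∃ s c : A, s ∉ q ∧ algebraMap A L s * x = algebraMap A L c := by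
  have hinj : Function.Injective (algebraMap A L) := IsFractionRing.injective A L
  obtain ⟨a, b, hb, rfl⟩ := IsFractionRing.div_surjective (A := A) x
  have hb0 : algebraMap A L b ≠ 0 :=
    IsFractionRing.to_map_ne_zero_of_mem_nonZeroDivisors hb
  by_cases ha : a = 0
  · refine ⟨1, 0, fun h => (Ideal.ne_top_iff_one q).1 (Ideal.IsPrime.ne_top inferInstance) h, ?_⟩
    rw [ha, map_zero, zero_div, mul_zero]
  have ha0 : algebraMap A L a ≠ 0 := fun h => ha (hinj (by rw [h, map_zero]))
  have hdvr := IsLocalization.AtPrime.isDiscreteValuationRing_of_dedekind_domain A hq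
    (Localization.AtPrime q)
  have key : ∀ a b : A, algebraMap A (Localization.AtPrime q) b ∣
      algebraMap A (Localization.AtPrime q) a → ∃ s c : A, s ∉ q ∧ s * a = b * c := by
    rintro a b ⟨z, hz⟩
    obtain ⟨⟨c, s⟩, hcs⟩ := IsLocalization.surj q.primeCompl z
    have h1 : algebraMap A (Localization.AtPrime q) (a * s) =
        algebraMap A (Localization.AtPrime q) (b * c) := by
      rw [map_mul, map_mul, hz, mul_assoc, hcs]
    obtain ⟨t, ht⟩ := (IsLocalization.eq_iff_exists q.primeCompl _).1 h1
    refine ⟨t * s, t * c, (t * s).2, ?_⟩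
    calc (t * s : A) * a = t * (a * s) := by ring
      _ = t * (b * c) := ht
      _ = b * (t * c) := by ring
  rcases ValuationRing.dvd_total (algebraMap A (Localization.AtPrime q) b)
    (algebraMap A (Localization.AtPrime q) a) with h | h
  · obtain ⟨s, c, hs, e⟩ := key a b h
    refine ⟨s, c, hs, ?_⟩
    rw [← mul_div_assoc, ← map_mul, e, map_mul, mul_div_cancel_left₀ _ hb0]
  · obtain ⟨s, c, hs, e⟩ := key b a h
    by_cases hc : c ∈ q
    · exfalso
      have h1 : V.valuation (algebraMap A L s) = 1 :=
        le_antisymm ((V.valuation_le_one_iff _).2 (hV s).1)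
          (not_lt.1 fun h => hs ((hV s).2.1 h))
      have h2 : V.valuation (algebraMap A L c) < 1 := (hV c).2.2 hc
      have h3 : algebraMap A L c * (algebraMap A L a / algebraMap A L b) = algebraMap A L s := by
        rw [← mul_div_assoc, ← map_mul, mul_comm c a, ← e, map_mul, mul_div_cancel_right₀ _ hb0]
      have h4 : V.valuation (algebraMap A L a / algebraMap A L b) ≤ 1 :=
        (V.valuation_le_one_iff _).2 hx
      have h5 : V.valuation (algebraMap A L s) < 1 := by
        rw [← h3, map_mul]
        exact mul_lt_one_of_lt_of_le h2 h4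
      exact absurd h1 h5.ne
    · refine ⟨c, s, hc, ?_⟩
      rw [← mul_div_assoc, ← map_mul, mul_comm c a, ← e, map_mul, mul_div_cancel_right₀ _ hb0]

/-- PROOF. The set of all `a / s`, `a, s ∈ A`, `s ∉ q`, is a discrete valuation ring
(`Localization.AtPrime q`, `IsLocalization.AtPrime.isDiscreteValuationRing_of_dedekind_domain`),
a valuation ring `W` of `L` which is contained in `V`; so `V = W` or `V = ⊤` (`eq_or_top` for `W`,
or directly because a discrete valuation ring is a maximal subring), and `V ≠ ⊤` because `q ≠ ⊥`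
contains some `a ≠ 0` with `v a < 1`. So `x = a / s` with `s ∉ q`; `q` is maximal, so there is `t`
with `s * t - 1 ∈ q`, and `x - a * t = (a / s) * (1 - s * t)` has value less than `1`. -/
theorem exists_sub_lt {A L : Type u} [CommRing A] [IsDomain A] [IsDedekindDomain A] [Field L]
    [Algebra A L] [IsFractionRing A L] (q : Ideal A) [q.IsPrime] (hq : q ≠ ⊥)
    (V : ValuationSubring L) (hV : Dmt (algebraMap A L) q V) (x : L) (hx : x ∈ V) :
    ∃ a : A, V.valuation (x - algebraMap A L a) < 1 := by
  obtain ⟨s, c, hs, e⟩ := exists_frac q hq V hV x hx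
  have hm : q.IsMaximal := Ideal.IsPrime.isMaximal inferInstance hq
  obtain ⟨t, i, hi, ht⟩ := hm.exists_inv hs
  refine ⟨c * t, ?_⟩
  have h1 : x - algebraMap A L (c * t) = x * algebraMap A L i := by
    have h2 : algebraMap A L t * algebraMap A L s + algebraMap A L i = 1 := by
      rw [← map_mul, ← map_add, ht, map_one]
    rw [map_mul, ← e]
    linear_combination (x) * h2.symm
  rw [h1, map_mul, mul_comm]
  exact mul_lt_one_of_lt_of_le ((hV i).2.2 hi) ((V.valuation_le_one_iff _).2 hx)

end Pool.Agent.NNO
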