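import Pool.Agent.NNO.Defs

/-!
# Valuation rings with given centre (package NNO-Dom)
-/

set_option autoImplicit false

namespace Pool.Agent.NNO

universe u v

/-- PROOF. The elements of `A` outside `q` are invertible in `E` (`ker f ≤ q`), so `f` extends to
`g : Localization.AtPrime q →+* E` (`IsLocalization.lift`). The source is a local ring, and
`IsLocalRing.exists_factor_valuationRing` (`RingTheory/Valuation/LocalSubring.lean`) gives a
valuation ring `V` of `E` which contains the range of `g`, such that the map to `V` is local. If
`a ∈ q` then its image in the localization is no unit, so `f a` is no unit of `V` and `v (f a) <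
1`; if `a ∉ q` then it is a unit, and `v (f a) = 1`. -/
theorem exists_dmt {A : Type u} [CommRing A] {E : Type v} [Field E] (f : A →+* E) (q : Ideal A)
    [q.IsPrime] (hq : RingHom.ker f ≤ q) : ∃ V : ValuationSubring E, Dmt f q V := by
  have hu : ∀ y : q.primeCompl, IsUnit (f y) := by
    intro y
    rw [isUnit_iff_ne_zero]
    intro h
    exact y.2 (hq (by rw [RingHom.mem_ker]; exact h))
  let g : Localization.AtPrime q →+* E := IsLocalization.lift hu
  have hg : ∀ a, g (algebraMap A (Localization.AtPrime q) a) = f a :=
    fun a => IsLocalization.lift_eq hu a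
  obtain ⟨V, hV, hloc⟩ := IsLocalRing.exists_factor_valuationRing g
  refine ⟨V, fun a => ?_⟩
  have hmem : f a ∈ V := by
    rw [← hg a]
    exact hV _
  refine ⟨hmem, ?_⟩
  have h1 : V.valuation (f a) < 1 ↔ ¬ IsUnit (⟨f a, hmem⟩ : V) := by
    rw [← mem_nonunits_iff, ← IsLocalRing.mem_maximalIdeal]
    exact (V.valuation_lt_one_iff ⟨f a, hmem⟩).symm
  have h2 : IsUnit (⟨f a, hmem⟩ : V) ↔ IsUnit (algebraMap A (Localization.AtPrime q) a) := by
    have e : g.codRestrict V.toSubring hV (algebraMap A (Localization.AtPrime q) a) =
        (⟨f a, hmem⟩ : V) := Subtype.ext (hg a)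
    constructor
    · intro h
      refine hloc.map_nonunit _ ?_
      rw [e]
      exact h
    · intro h
      have h3 := h.map (g.codRestrict V.toSubring hV)
      rw [e] at h3
      exact h3
  rw [h1, h2, IsLocalization.AtPrime.isUnit_to_map_iff (Localization.AtPrime q) q a]
  exact not_not

end Pool.Agent.NNO
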