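import Pool.Agent.NNO.Defs

/-!
# Neighbouring primes (package NNO-Hgt)
-/

set_option autoImplicit false

namespace Pool.Agent.NNO

universe u

private theorem map_lt' {A : Type u} [CommRing A] (P I J : Ideal A) (hI : P ≤ I)
    (h : I < J) : I.map (Ideal.Quotient.mk P) < J.map (Ideal.Quotient.mk P) := by
  refine lt_of_le_not_ge (Ideal.map_mono h.le) fun h2 => ?_
  have h3 := Ideal.comap_mono (f := Ideal.Quotient.mk P) h2
  rw [Ideal.comap_map_mk hI, Ideal.comap_map_mk (hI.trans h.le)] at h3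
  exact absurd h (not_lt_of_ge h3)

private theorem map_prime' {A : Type u} [CommRing A] (P I : Ideal A) [I.IsPrime] (hI : P ≤ I) :
    (I.map (Ideal.Quotient.mk P)).IsPrime :=
  Ideal.map_isPrime_of_surjective Ideal.Quotient.mk_surjective (by rw [Ideal.mk_ker]; exact hI)

/-- The minimal primes over `P ⊔ span {x}` are neighbours of `P`. -/
theorem cov_of_minimal {A : Type u} [CommRing A] [IsNoetherianRing A] (P q : Ideal A)
    [P.IsPrime] (x : A) (hx : x ∉ P) (hq : q ∈ (P ⊔ Ideal.span {x}).minimalPrimes) :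
    Cov P q := by
  have hqp : q.IsPrime := hq.1.1
  have hxq : x ∈ q := hq.1.2 (Ideal.mem_sup_right (Ideal.mem_span_singleton_self x))
  have hPq : P ≤ q := le_sup_left.trans hq.1.2
  have hlt : P < q := lt_of_le_of_ne hPq (fun h => hx (h ▸ hxq))
  refine ⟨hlt, fun r hr h1 h2 => ?_⟩
  by_contra hcon
  rw [not_or] at hcon
  have hPr : P < r := lt_of_le_of_ne h1 (Ne.symm hcon.1)
  have hrq : r < q := lt_of_le_of_ne h2 hcon.2
  have hh := Ideal.map_height_le_one_of_mem_minimalPrimes hq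
  have i1 := map_prime' P P le_rfl
  have i2 := map_prime' P r h1
  have i3 := map_prime' P q hPq
  have e1 := Ideal.height_add_one_le_of_lt_of_isPrime (map_lt' P P r le_rfl hPr)
  have e2 := Ideal.height_add_one_le_of_lt_of_isPrime (map_lt' P r q h1 hrq)
  have e3 : (1 : ℕ∞) ≤ (r.map (Ideal.Quotient.mk P)).height := le_trans le_add_self e1
  have e4 : (1 : ℕ∞) + 1 ≤ 1 := le_trans (add_le_add_left e3 1) (e2.trans hh)
  exact absurd e4 (by decide)

/-- PROOF. `x ∈ q₀`, `x ∉ P`; `q` a minimal prime over `P ⊔ span {x}` contained in `q₀`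
(`Ideal.exists_minimalPrimes_le`). Then `P < q`. If `P ≤ r ≤ q`, `r` prime: in the noetherian
domain `A ⧸ P` the image of `q` is a minimal prime over `span {x}`, so its height is at most `1`
(`Ideal.height_le_one_of_isPrincipal_of_mem_minimalPrimes`, or directly
`Ideal.map_height_le_one_of_mem_minimalPrimes`), and `⊥ ≤ r/P ≤ q/P`; `⊥ < r/P < q/P` would give
height at least `2`. -/
theorem exists_cov {A : Type u} [CommRing A] [IsNoetherianRing A] (P q₀ : Ideal A) [P.IsPrime]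
    [q₀.IsPrime] (h : P < q₀) : ∃ q : Ideal A, q.IsPrime ∧ Cov P q ∧ q ≤ q₀ := by
  obtain ⟨x, hx1, hx2⟩ := SetLike.exists_of_lt h
  obtain ⟨q, hq, hle⟩ := Ideal.exists_minimalPrimes_le (I := P ⊔ Ideal.span {x}) (J := q₀)
    (sup_le h.le ((Ideal.span_singleton_le_iff_mem _).2 hx1))
  exact ⟨q, hq.1.1, cov_of_minimal P q x hx2 hq, hle⟩

/-- PROOF. No `t ∈ T` contains `p₂`: `⊥ < p₁ < p₂ ≤ t` contradicts `Cov ⊥ t`. By prime avoidance
(`Ideal.subset_union_prime`) for `p₂` and the primes in `insert ⊥ T` there is `x ∈ p₂` with `x ≠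
0`, `x ∉ t` for all `t ∈ T`. Let `q` be a minimal prime over `span {x}` contained in `p₂`. As in
`exists_cov` (with `P = ⊥`), `Cov ⊥ q`; `q ∉ T` because `x ∈ q`; `q ≠ p₂` because `⊥ < p₁ <
p₂`. -/
theorem exists_cov_notMem {A : Type u} [CommRing A] [IsDomain A] [IsNoetherianRing A]
    (p₁ p₂ : Ideal A) [p₁.IsPrime] [p₂.IsPrime] (h1 : p₁ ≠ ⊥) (h2 : p₁ < p₂)
    (T : Finset (Ideal A)) (hT : ∀ t ∈ T, t.IsPrime ∧ Cov ⊥ t) :
    ∃ q : Ideal A, q.IsPrime ∧ Cov ⊥ q ∧ q < p₂ ∧ q ∉ T := by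
  classical
  have hp2 : p₂ ≠ ⊥ := fun h => absurd (h ▸ h2) (not_lt_bot)
  have hx : ∃ x ∈ p₂, ∀ t ∈ insert ⊥ T, x ∉ t := by
    by_contra hcon
    push Not at hcon
    have h3 : (p₂ : Set A) ⊆ ⋃ i ∈ (↑(insert ⊥ T) : Set (Ideal A)), ((id i : Ideal A) : Set A) := by
      intro x hx
      obtain ⟨t, ht, hxt⟩ := hcon x hx
      exact Set.mem_biUnion (Finset.mem_coe.2 ht) hxt
    obtain ⟨t, ht, hle⟩ := (Ideal.subset_union_prime (s := insert ⊥ T) (f := id) ⊥ ⊥ (by
      intro i hi h4 _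
      rcases Finset.mem_insert.1 hi with h5 | h5
      · exact absurd h5 h4
      · exact (hT i h5).1)).1 h3
    rcases Finset.mem_insert.1 ht with h5 | h5
    · exact hp2 (le_bot_iff.1 (h5 ▸ hle))
    · rcases (hT t h5).2.2 p₁ inferInstance bot_le (h2.le.trans hle) with h6 | h6
      · exact h1 h6
      · exact absurd h2 (not_lt_of_ge (h6 ▸ hle))
  obtain ⟨x, hx1, hx2⟩ := hx
  have hx0 : x ∉ (⊥ : Ideal A) := hx2 ⊥ (Finset.mem_insert_self _ _)
  obtain ⟨q, hq, hle⟩ := Ideal.exists_minimalPrimes_le (I := ⊥ ⊔ Ideal.span {x}) (J := p₂)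
    (sup_le bot_le ((Ideal.span_singleton_le_iff_mem _).2 hx1))
  have hc := cov_of_minimal ⊥ q x hx0 hq
  have hxq : x ∈ q := hq.1.2 (Ideal.mem_sup_right (Ideal.mem_span_singleton_self x))
  refine ⟨q, hq.1.1, hc, lt_of_le_of_ne hle fun h => ?_, fun h =>
    hx2 q (Finset.mem_insert_of_mem h) hxq⟩
  rcases hc.2 p₁ inferInstance bot_le (h ▸ h2.le) with h6 | h6
  · exact h1 h6
  · exact h2.ne (h6.trans h)

end Pool.Agent.NNO
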