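import Pool.Agent.NNO.Defs

/-!
# The local ring inside the field (package NNO-Loc)
-/

set_option autoImplicit false

namespace Pool.Agent.NNO

universe u

/-- PROOF. The elements outside `q` are invertible in `E` (`ker f < q`), so `f` extends to `g :
Localization.AtPrime q →+* E`; let `D = g.range`. It is noetherian (`Localization.AtPrime q` is,
and quotients are: `isNoetherianRing_range`). `D` is the set of all `f a / f s`, `s ∉ q`.
Dimension: let `Q` be a prime of `D`, `Q ≠ ⊥`; its preimage `r` in `A` is a prime with `ker f ≤ r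
≤ q` (the elements outside `q` become units), and `r ≠ ker f` because `Q` contains some `f a / f s
≠ 0`, so `f a ∈ Q`, `a ∉ ker f`; by `Cov`, `r = q`. So `Q` contains all non-units `f a / f s` (`a
∈ q`) of `D`, and `Q` is maximal. Rank: by `FinOver` every `x ∈ E` has a nonzero multiple `f s *
x` in the `D`-span of `S`; hence any linearly independent family has at most `S.card` members (for
example: `E` is spanned by `S` over the subfield `F = {x / y : x y ∈ D}` = the fraction field of
`D` in `E`, `Module.rank F E < aleph0`, and the ranks over `D` and `F` agree,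
`IsFractionRing.rank_eq`/`IsLocalizedModule.rank_eq`; or: the map to the localized module). -/
theorem exists_loc {A : Type u} [CommRing A] [IsNoetherianRing A] {E : Type u} [Field E]
    (f : A →+* E) (hf : FinOver f) (q : Ideal A) [q.IsPrime] (hq : Cov (RingHom.ker f) q) :
    ∃ D : Subring E, IsNoetherianRing D ∧ Ring.DimensionLEOne D ∧
      Module.rank D E < Cardinal.aleph0 ∧ (∀ a, f a ∈ D) ∧ (∀ s, s ∉ q → (f s)⁻¹ ∈ D) ∧
      ∀ x ∈ D, ∃ a s, s ∉ q ∧ x = f a * (f s)⁻¹ := by
  classical
  have hker : ∀ s : A, s ∉ q → f s ≠ 0 := fun s hs h0 => hs (hq.1.le (RingHom.mem_ker.2 h0))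
  have hunit : ∀ y : q.primeCompl, IsUnit (f y) := fun y => isUnit_iff_ne_zero.2 (hker y y.2)
  let g : Localization.AtPrime q →+* E := IsLocalization.lift hunit
  have hgA : ∀ a, g (algebraMap A _ a) = f a := fun a => IsLocalization.lift_eq hunit a
  have hgm : ∀ a (s : q.primeCompl), g (IsLocalization.mk' _ a s) = f a * (f s)⁻¹ := by
    intro a s
    have h1 : f a = f s * g (IsLocalization.mk' _ a s) :=
      (IsLocalization.lift_mk'_spec hunit (x := a) (v := _) (y := s)).1 rfl
    rw [h1]
    field_simp [hker s s.2]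
  have hmem : ∀ x ∈ g.range, ∃ a s, s ∉ q ∧ x = f a * (f s)⁻¹ := by
    rintro _ ⟨z, rfl⟩
    obtain ⟨a, s, rfl⟩ := IsLocalization.exists_mk'_eq q.primeCompl z
    exact ⟨a, s, s.2, hgm a s⟩
  have hA : ∀ a, f a ∈ g.range := fun a => ⟨_, hgA a⟩
  have hinv : ∀ s, s ∉ q → (f s)⁻¹ ∈ g.range := by
    intro s hs
    refine ⟨IsLocalization.mk' _ 1 (⟨s, hs⟩ : q.primeCompl), ?_⟩
    rw [hgm, map_one, one_mul]
  refine ⟨g.range, isNoetherianRing_range g, ?_, ?_, hA, hinv, hmem⟩
  · constructor
    intro Q hQ0 hQ
    let φ : A →+* g.range := f.codRestrict g.range hA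
    have hφu : ∀ s, s ∉ q → IsUnit (φ s) := by
      intro s hs
      refine IsUnit.of_mul_eq_one ⟨(f s)⁻¹, hinv s hs⟩ ?_
      apply Subtype.ext
      exact mul_inv_cancel₀ (hker s hs)
    have h1 : RingHom.ker f ≤ Q.comap φ := by
      intro a ha
      rw [Ideal.mem_comap]
      have h2 : φ a = 0 := Subtype.ext (RingHom.mem_ker.1 ha)
      rw [h2]
      exact Q.zero_mem
    have h2 : Q.comap φ ≤ q := by
      intro a ha
      by_contra hn
      exact hQ.ne_top (Q.eq_top_of_isUnit_mem (Ideal.mem_comap.1 ha) (hφu a hn))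
    have h3 : Q.comap φ ≠ RingHom.ker f := by
      intro h
      obtain ⟨x, hx, hx0⟩ := Submodule.exists_mem_ne_zero_of_ne_bot hQ0
      obtain ⟨a, s, hs, hxa⟩ := hmem x x.2
      have h4 : φ a = x * φ s := by
        apply Subtype.ext
        change f a = (x : E) * f s
        rw [hxa, mul_assoc, inv_mul_cancel₀ (hker s hs), mul_one]
      have h5 : a ∈ Q.comap φ := by
        rw [Ideal.mem_comap, h4]
        exact Q.mul_mem_right _ hx
      rw [h] at h5
      apply hx0
      apply Subtype.ext
      rw [hxa, RingHom.mem_ker.1 h5, zero_mul]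
      rfl
    have h4 : Q.comap φ = q :=
      (hq.2 _ (Ideal.comap_isPrime φ Q) h1 h2).resolve_left h3
    rw [Ideal.isMaximal_iff]
    refine ⟨(Ideal.ne_top_iff_one Q).1 hQ.ne_top, fun J x hJ hx hxJ => ?_⟩
    obtain ⟨a, s, hs, hxa⟩ := hmem x x.2
    have h5 : a ∉ q := by
      intro ha
      rw [← h4, Ideal.mem_comap] at ha
      apply hx
      have h6 : x = φ a * ⟨(f s)⁻¹, hinv s hs⟩ := Subtype.ext hxa
      rw [h6]
      exact Q.mul_mem_right _ ha
    have h7 : x * (φ s * ⟨(f a)⁻¹, hinv a h5⟩) = 1 := by
      apply Subtype.ext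
      change (x : E) * (f s * (f a)⁻¹) = 1
      rw [hxa]
      have := hker a h5
      have := hker s hs
      field_simp
    rw [← h7]
    exact J.mul_mem_right _ hxJ
  · let K := FractionRing g.range
    have hinj : Function.Injective (algebraMap g.range E) := Subtype.val_injective
    let ψ : K →+* E := IsFractionRing.lift (A := g.range) hinj
    letI : Algebra K E := ψ.toAlgebra
    haveI : IsScalarTower g.range K E := IsScalarTower.of_algebraMap_eq fun x =>
      (IsFractionRing.lift_algebraMap hinj x).symm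
    rw [← IsFractionRing.rank_right_eq g.range K E]
    obtain ⟨S, hS⟩ := hf
    have hfin : Module.Finite K E := by
      refine ⟨⟨S, ?_⟩⟩
      rw [eq_top_iff]
      rintro x -
      obtain ⟨s, c, hs, hx⟩ := hS x
      let φ : A →+* g.range := f.codRestrict g.range hA
      have hφ : ∀ a, ψ (algebraMap g.range K (φ a)) = f a := fun a =>
        IsFractionRing.lift_algebraMap hinj (φ a)
      have h1 : x = (algebraMap g.range K (φ s))⁻¹ • (f s * x) := by
        rw [Algebra.smul_def, map_inv₀]
        change x = (ψ (algebraMap g.range K (φ s)))⁻¹ * (f s * x)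
        rw [hφ, inv_mul_cancel_left₀ hs]
      rw [h1, hx]
      refine Submodule.smul_mem _ _ (Submodule.sum_mem _ fun y hy => ?_)
      have h2 : f (c y) * y = (algebraMap g.range K (φ (c y))) • y := by
        rw [Algebra.smul_def]
        change f (c y) * y = ψ (algebraMap g.range K (φ (c y))) * y
        rw [hφ]
      rw [h2]
      exact Submodule.smul_mem _ _ (Submodule.subset_span hy)
    exact Module.rank_lt_aleph0 K E

end Pool.Agent.NNO
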