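import Pool.Agent.NNO.Root
import Pool.Agent.NNO.Loc
import Pool.Agent.NNO.Hgt
import Pool.Agent.NNO.Dom
import Pool.Agent.NNO.Ded

/-!
# Artin-Schreier closed fields (package NNO-CharP)
-/

set_option autoImplicit false

namespace Pool.Agent.NNO

universe u

/-- A noetherian domain with Artin-Schreier closed fraction field is a field.

PROOF. Otherwise there is a nonzero prime; by `exists_cov` (`P = ⊥ = ker (algebraMap A L)`) there
is a prime `q` with `Cov ⊥ q`; `V` from `exists_dmt`; `D` from `exists_loc`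
(`finOver_algebraMap`), `D ⊆ V`; `a ∈ q`, `a ≠ 0`; `N` from `root_bound D .. a`. Construct `x₀ =
a⁻¹`, `x (k + 1) ^ p - x (k + 1) = x k`. If `v (x k) > 1`, then `v (x (k + 1)) > 1` and `v (x (k +
1)) ^ p = v (x k)` (if `v y ≤ 1` then `v (y ^ p - y) ≤ 1`; if `v y > 1` then `v (y ^ p) > v y` and
`v (y ^ p - y) = v y ^ p`). So `v (x k) ^ (p ^ k) = v (a⁻¹)`, and for `b = (x k)⁻¹`: `b ∈ V`, `b⁻¹
∉ V`, `v (a * b⁻¹ ^ (p ^ k)) = 1`, so `p ^ k ≤ N` for all `k`, a contradiction. -/
theorem isField_of_as {A L : Type u} [CommRing A] [IsDomain A] [IsNoetherianRing A] [Field L]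
    [Algebra A L] [IsFractionRing A L] (p : ℕ) (hp : p.Prime)
    (h : ∀ w : L, ∃ x : L, x ^ p - x = w) : IsField A := by
  by_contra hA
  obtain ⟨q₀, hq₀, hq₀p⟩ := Ring.not_isField_iff_exists_prime.1 hA
  obtain ⟨q, hqp, hcov, -⟩ := exists_cov (A := A) ⊥ q₀ (bot_lt_iff_ne_bot.2 hq₀)
  have hinj : Function.Injective (algebraMap A L) := IsFractionRing.injective A L
  have hker : RingHom.ker (algebraMap A L) = ⊥ := (RingHom.injective_iff_ker_eq_bot _).1 hinj
  have hcov' : Cov (RingHom.ker (algebraMap A L)) q := by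
    rw [hker]
    exact hcov
  obtain ⟨V, hV⟩ := exists_dmt (algebraMap A L) q hcov'.1.le
  obtain ⟨D, hD1, hD2, hD3, hD4, -, hD6⟩ :=
    exists_loc (algebraMap A L) finOver_algebraMap q hcov'
  obtain ⟨a, haq, ha0⟩ := Submodule.exists_mem_ne_zero_of_ne_bot (ne_of_gt hcov.1)
  have hfa : algebraMap A L a ≠ 0 := fun h0 => ha0 (hinj (by rw [h0, map_zero]))
  obtain ⟨N, hN⟩ := root_bound D hD3 (algebraMap A L a) (hD4 a) hfa
  have hDV : ∀ x ∈ D, x ∈ V := by
    intro x hx
    obtain ⟨b, s, hs, rfl⟩ := hD6 x hx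
    have h1 : V.valuation (algebraMap A L s) = 1 := by
      refine le_antisymm ((V.valuation_le_one_iff _).2 (hV s).1) (not_lt.1 fun h2 => hs ?_)
      exact (hV s).2.1 h2
    rw [← V.valuation_le_one_iff, map_mul, map_inv₀, h1, inv_one, mul_one]
    exact (V.valuation_le_one_iff _).2 (hV b).1
  have hva : V.valuation (algebraMap A L a) < 1 := (hV a).2.2 haq
  have hva0 : V.valuation (algebraMap A L a) ≠ 0 := (Valuation.ne_zero_iff _).2 hfa
  have key : ∀ k : ℕ, ∃ x : L, 1 < V.valuation x ∧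
      V.valuation x ^ (p ^ k) = (V.valuation (algebraMap A L a))⁻¹ := by
    intro k
    induction k with
    | zero =>
      refine ⟨(algebraMap A L a)⁻¹, ?_, ?_⟩
      · rw [map_inv₀]
        exact (one_lt_inv₀ (zero_lt_iff.2 hva0)).2 hva
      · rw [pow_zero, pow_one, map_inv₀]
    | succ k ih =>
      obtain ⟨x, hx1, hx2⟩ := ih
      obtain ⟨y, hy⟩ := h x
      have hy1 : 1 < V.valuation y := by
        by_contra hcon
        rw [not_lt] at hcon
        have h3 : y ∈ V := (V.valuation_le_one_iff _).1 hcon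
        have h4 : x ∈ V := by
          rw [← hy]
          exact V.sub_mem (V.pow_mem h3 p) h3
        exact absurd ((V.valuation_le_one_iff _).2 h4) (not_le.2 hx1)
      have hy2 : V.valuation y < V.valuation (y ^ p) := by
        rw [map_pow]
        exact lt_self_pow₀ hy1 hp.one_lt
      have hy3 : V.valuation x = V.valuation y ^ p := by
        rw [← hy, Valuation.map_sub_eq_of_lt_left _ hy2, map_pow]
      refine ⟨y, hy1, ?_⟩
      rw [pow_succ', pow_mul, ← hy3, hx2]
  obtain ⟨x, hx1, hx2⟩ := key N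
  have hx0 : V.valuation x ≠ 0 := (zero_lt_one.trans hx1).ne'
  have h5 := hN V hDV x⁻¹ (by
    rw [← V.valuation_le_one_iff, map_inv₀]
    exact inv_le_one_of_one_le₀ hx1.le) (by
    rw [inv_inv, ← V.valuation_le_one_iff, not_le]
    exact hx1) (p ^ N) (by
    rw [inv_inv, ← V.valuation_le_one_iff, map_mul, map_pow, hx2, mul_inv_cancel₀ hva0])
  exact absurd h5 (not_le.2 (Nat.lt_pow_self hp.one_lt))

end Pool.Agent.NNO
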