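import Pool.Agent.NIPFields.Finitely
import Pool.Agent.NIPFields.NonNorm
import Pool.Agent.NIPFields.Main
import Pool.Agent.NIPFields.Approx

/-!
# An NIP field has few independent valuation rings (package NNO-Few)
-/

set_option autoImplicit false

namespace Pool.Agent.NNO

open FirstOrder FirstOrder.Language FirstOrder.Ring Pool.Agent.NIPFields

universe u

/-- PROOF. Apply `shatE_of_independent` with `B i = (V i : Set
L)`, `c i = 1` (`VBall.add`: `x + y = 1 * (x + y)`), `e i ∉ V i` (`V i ≠ ⊤`, because for `V i = ⊤`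
all nonzero elements have value `1 = 1 ^ ℓ`). `Good.box`: `BLe B x y` means `x ∈ y V`, that is `v
x ≤ v y`. With `u = u i`, `π = π i` choose `t ≠ 0` with `v t < 1` (exists, `V i ≠ ⊤`) and `r = t *
(π or 1)`, such that `v r < 1` and `v r < v π` (`r = t * π` if `v π ≤ 1`, `r = t` if `1 < v π`);
`a i = u`, `b i = π`. If `v (x - u) ≤ v r < 1` and `v (y - π) ≤ v r < v π`, then `v y = v π` is no
`ℓ`-th power, and `not_mem_NS` (`NonNorm.lean`, `b = y`, `f = x`) gives `x ∉ NS ℓ y`. `Indep (V i)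
(V j)`: let `δ, d ≠ 0` and suppose `v_i x ≤ v_i δ → v_j x ≤ v_j d` for all `x`. Then `V i ⊆ (d /
δ) V j`, so the subring generated by `V i` and `V j`, which consists of the sums of products `x *
y`, `x ∈ V i`, `y ∈ V j`, is contained in `(d / δ) V j`; it is a valuation ring containing both,
so it is `⊤` (`V i ⊔ V j = ⊤`), and `(d / δ) V j = ⊤` implies `V j = ⊤`, a contradiction. (See also
`NIPFields/Approx.lean`, where a similar fact is proved for `exists_shatter`.) -/
theorem shatE_of_vals {Q : Type u} [Field Q] {ℓ : ℕ} (hℓ : ℓ.Prime) (hℓ0 : (ℓ : Q) ≠ 0) (n : ℕ)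
    (V : Fin n → ValuationSubring Q) (hind : ∀ i j, i ≠ j → V i ⊔ V j = ⊤)
    (hu : ∀ i, ∃ w, (V i).valuation w = 1 ∧ ∀ c, ¬ (V i).valuation (w - c ^ ℓ) < 1)
    (hπ : ∀ i, ∃ π, π ≠ 0 ∧ ∀ c, (V i).valuation π ≠ (V i).valuation c ^ ℓ) : ShatE ℓ Q n := by
  have hfact : Fact ℓ.Prime := ⟨hℓ⟩
  have hnz : NeZero ℓ := ⟨hℓ.ne_zero⟩
  choose u hu1 hu2 using hu
  choose π hπ0 hπ using hπ
  have hne : ∀ i, V i ≠ ⊤ := by
    intro i hi
    apply hπ i 1
    rw [map_one, one_pow]
    have h1 : (V i).valuation (π i) ≤ 1 := by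
      rw [(V i).valuation_le_one_iff, hi]
      exact ValuationSubring.mem_top _
    have h2 : (V i).valuation (π i)⁻¹ ≤ 1 := by
      rw [(V i).valuation_le_one_iff, hi]
      exact ValuationSubring.mem_top _
    refine le_antisymm h1 ?_
    rw [map_inv₀] at h2
    exact (inv_le_one₀ ((Valuation.pos_iff _).2 (hπ0 i))).1 h2
  have hr : ∀ i, ∃ r : Q, r ≠ 0 ∧ (V i).valuation r < 1 ∧
      (V i).valuation r < (V i).valuation (π i) := by
    intro i
    rcases le_total ((V i).valuation (π i)) 1 with h | h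
    · obtain ⟨r, hr0, hr1⟩ := exists_lt (V i) (hne i) (π i) (hπ0 i)
      exact ⟨r, hr0, hr1.trans_le h, hr1⟩
    · obtain ⟨r, hr0, hr1⟩ := exists_lt (V i) (hne i) 1 one_ne_zero
      rw [map_one] at hr1
      exact ⟨r, hr0, hr1, hr1.trans_le h⟩
  choose r hr0 hr1 hr2 using hr
  have he : ∀ i, ∃ e : Q, e ∉ (V i : Set Q) := by
    intro i
    by_contra hcon
    push Not at hcon
    exact hne i (eq_top_iff.2 fun x _ => hcon x)
  choose e he using he
  have hle : ∀ i (x z : Q), BLe (V i : Set Q) z x → (V i).valuation z ≤ (V i).valuation x := by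
    rintro i x z ⟨b, hb, rfl⟩
    rw [map_mul]
    have h1 : (V i).valuation b ≤ 1 := (V i).valuation_le_one_iff b |>.2 hb
    calc (V i).valuation b * (V i).valuation x ≤ 1 * (V i).valuation x := by gcongr
      _ = _ := one_mul _
  refine shatE_of_independent hℓ0 n (fun i => (V i : Set Q)) (fun _ => 1) e u π r hr0
    (fun i => ⟨?_, ?_⟩) ?_
  · refine ⟨(V i).zero_mem, fun x hx y hy => (V i).mul_mem x y hx hy, fun x hx => ?_,
      fun x hx y hy => ⟨x + y, (V i).add_mem x y hx hy, ?_⟩, ?_, he i⟩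
    · exact ((V i).mem_or_inv_mem x).resolve_left hx
    · rw [map_one, one_mul]
    · rw [map_one]
      exact one_ne_zero
  · intro x y hx hy
    rw [RingHom.id_apply, RingHom.id_apply] at hx hy
    have h1 := hle i _ _ hx
    have h2 := hle i _ _ hy
    have h3 : (V i).valuation y = (V i).valuation (π i) := by
      have h4 : y = (y - π i) + π i := by ring
      rw [h4, Valuation.map_add_eq_of_lt_right _ (h2.trans_lt (hr2 i))]
    exact not_mem_NS (V i) hℓ0 y x (u i) (fun c => by rw [h3]; exact hπ i c) (hu1 i) (hu2 i)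
      (h1.trans_lt (hr1 i))
  · intro i j hij δ d hδ hd
    obtain ⟨x, hx, hxj⟩ := not_mul_le (V i) (V j) (hind i j hij) (hne j) (δ / d)
      (div_ne_zero hδ hd)
    refine ⟨x * δ, ⟨x, hx, rfl⟩, ?_⟩
    rintro ⟨b, hb, hbd⟩
    apply hxj
    have h1 : δ / d * x = b := by
      field_simp
      linear_combination hbd
    rw [h1]
    exact hb

/-- An NIP field has few independent valuation rings. -/
theorem few {L : Type u} [Field L] [CompatibleRing L] (hL : NIP L) {ℓ : ℕ} (hℓ : ℓ.Prime)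
    (hℓ0 : (ℓ : L) ≠ 0) : ∃ n : ℕ, ∀ V : Fin n → ValuationSubring L,
      (∀ i j, i ≠ j → V i ⊔ V j = ⊤) →
      (∀ i, ∃ w, (V i).valuation w = 1 ∧ ∀ c, ¬ (V i).valuation (w - c ^ ℓ) < 1) →
      (∀ i, ∃ π, π ≠ 0 ∧ ∀ c, (V i).valuation π ≠ (V i).valuation c ^ ℓ) → False := by
  obtain ⟨n, hn⟩ := NIP.exists_not_shatE hL ℓ
  exact ⟨n, fun V h1 h2 h3 => hn (shatE_of_vals hℓ hℓ0 n V h1 h2 h3)⟩

end Pool.Agent.NNO
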