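import Pool.Agent.NNO.Root
import Pool.Agent.NNO.Loc

/-!
# The valuation ring is a maximal subring (package NNO-XB)
-/

set_option autoImplicit false

namespace Pool.Agent.NNO

universe u

/-- PROOF. `D` from `exists_loc`; it is contained in `V` (`v (f s) = 1` for `s ∉ q`). Suppose `W ≠
V`: there is `y ∈ W`, `y ∉ V`; `b = y⁻¹ ∈ V`, `b⁻¹ ∉ V`. For every `a ∈ A` with `f a ≠ 0` there
is `n` with `f a * b⁻¹ ^ n ∉ V` (`root_bound`), so its inverse `(f a)⁻¹ * b ^ n` is in `V ≤ W`,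
and `(f a)⁻¹ = ((f a)⁻¹ * b ^ n) * y ^ n ∈ W`. So `W` contains the field of fractions `F` of the
image of `A`. `W` is integrally closed (a valuation ring) and by `FinOver` every `x ∈ E` is
algebraic over `F`, that is, integral over `F ⊆ W`, so `x ∈ W`. (`FinOver`: `E` is a finite
dimensional vector space over the subfield `F = {f a / f s}`, spanned by `S`.) -/
theorem eq_or_top {A : Type u} [CommRing A] [IsNoetherianRing A] {E : Type u} [Field E]
    (f : A →+* E) (hf : FinOver f) (q : Ideal A) [q.IsPrime] (hq : Cov (RingHom.ker f) q)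
    (V : ValuationSubring E) (hV : Dmt f q V) (W : ValuationSubring E) (hW : V ≤ W) :
    W = V ∨ W = ⊤ := by
  obtain ⟨D, hn, hd, hr, hA, -, hD⟩ := exists_loc f hf q hq
  have hDV : ∀ x ∈ D, x ∈ V := by
    intro x hx
    obtain ⟨a, s, hsq, rfl⟩ := hD x hx
    refine mul_mem (hV a).1 ?_
    have h1 : V.valuation (f s) = 1 := le_antisymm ((V.valuation_le_one_iff _).2 (hV s).1)
      (not_lt.1 fun h => hsq ((hV s).2.1 h))
    rw [← V.valuation_le_one_iff, map_inv₀, h1, inv_one]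
  by_cases hWV : W = V
  · exact Or.inl hWV
  right
  obtain ⟨y, hyW, hyV⟩ : ∃ y, y ∈ W ∧ y ∉ V := by
    by_contra hcon
    push Not at hcon
    exact hWV (le_antisymm hcon hW)
  have hy0 : y ≠ 0 := by
    rintro rfl
    exact hyV (zero_mem V)
  have hb : y⁻¹ ∈ V := (V.mem_or_inv_mem y).resolve_left hyV
  have hinv : ∀ a, f a ≠ 0 → (f a)⁻¹ ∈ W := by
    intro a ha
    obtain ⟨N, hN⟩ := root_bound D hr (f a) (hA a) ha
    have h1 : f a * y ^ (N + 1) ∉ V := by
      intro h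
      have := hN V hDV y⁻¹ hb (by rwa [inv_inv]) (N + 1) (by rwa [inv_inv])
      omega
    have h2 : (f a * y ^ (N + 1))⁻¹ ∈ V := (V.mem_or_inv_mem _).resolve_left h1
    have h3 : (f a)⁻¹ = (f a * y ^ (N + 1))⁻¹ * y ^ (N + 1) := by
      rw [mul_inv, mul_assoc, inv_mul_cancel₀ (pow_ne_zero _ hy0), mul_one]
    rw [h3]
    exact mul_mem (hW h2) (pow_mem hyW _)
  obtain ⟨S, hS⟩ := hf
  have hfin : Module.Finite W E := by
    refine ⟨⟨S, eq_top_iff.2 fun x _ => ?_⟩⟩
    obtain ⟨s, c, hs0, e⟩ := hS x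
    have e' : x = ∑ z ∈ S,
        (⟨f (c z) * (f s)⁻¹, mul_mem (hW (hV (c z)).1) (hinv s hs0)⟩ : W) • z := by
      have h1 : ∀ z ∈ S, (⟨f (c z) * (f s)⁻¹, mul_mem (hW (hV (c z)).1) (hinv s hs0)⟩ : W) • z =
          (f s)⁻¹ * (f (c z) * z) := by
        intro z _
        rw [Subring.smul_def, smul_eq_mul]
        ring
      rw [Finset.sum_congr rfl h1, ← Finset.mul_sum, ← e, inv_mul_cancel_left₀ hs0]
    rw [e']
    exact Submodule.sum_mem _ fun z hz => Submodule.smul_mem _ _ (Submodule.subset_span hz)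
  refine eq_top_iff.2 fun x _ => ?_
  have hx : IsIntegral W x := IsIntegral.of_finite W x
  obtain ⟨z, rfl⟩ := (IsIntegrallyClosed.isIntegral_iff (R := W) (K := E)).1 hx
  exact z.2

end Pool.Agent.NNO
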