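import Pool.Agent.NNO.Res
import Pool.Agent.NNO.Loc

/-!
# The residue field (package NNO-XC)
-/

set_option autoImplicit false

namespace Pool.Agent.NNO

universe u

/-- PROOF. `(V.valuation (f a) < 1 ↔ a ∈ q)` and `IsLocalRing.residue_eq_zero_iff`,
`ValuationSubring.valuation_lt_one_iff`. -/
theorem ker_resHom {A : Type u} [CommRing A] {E : Type u} [Field E] (f : A →+* E) (q : Ideal A)
    (V : ValuationSubring E) (hV : Dmt f q V) :
    RingHom.ker (resHom f V fun a => (hV a).1) = q := by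
  ext a
  rw [RingHom.mem_ker]
  change IsLocalRing.residue V (f.codRestrict V (fun a => (hV a).1) a) = 0 ↔ a ∈ q
  rw [IsLocalRing.residue_eq_zero_iff, ValuationSubring.valuation_lt_one_iff]
  exact (hV a).2

/-- PROOF. `D` from `exists_loc`; it is contained in `V` (`v (f s) = 1` for `s ∉ q`). Choose `a ∈
q` with `f a ≠ 0`: `(f a)⁻¹ ∉ V`. `exists_span D .. (f a)` gives `S ⊆ V`; take the set of the
residues of the elements of `S`. An element of the residue field is the residue of some `x ∈ V`,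
and `x = ∑ c y * y` up to an element of the maximal ideal, `c y ∈ D`, so `c y = f (g y) * (f (s
y))⁻¹` with `s y ∉ q`; multiply by `s = ∏ y ∈ S, s y ∉ q` (`resHom s ≠ 0` by `ker_resHom`). If two
elements of `S` have the same residue, add their coefficients (`Finset.sum_fiberwise`, or
`Finset.sum_comp`-like; or write the sum over the image as a sum over fibres). -/
theorem finOver_resHom {A : Type u} [CommRing A] [IsNoetherianRing A] {E : Type u} [Field E]
    (f : A →+* E) (hf : FinOver f) (q : Ideal A) [q.IsPrime] (hq : Cov (RingHom.ker f) q)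
    (V : ValuationSubring E) (hV : Dmt f q V) : FinOver (resHom f V fun a => (hV a).1) := by
  classical
  obtain ⟨D, hN, hdim, hrk, hfD, hsD, hD⟩ := exists_loc f hf q hq
  have hu : ∀ s, s ∉ q → V.valuation (f s) = 1 := fun s hs =>
    le_antisymm ((V.valuation_le_one_iff _).2 (hV s).1)
      (not_lt.1 fun h => hs ((hV s).2.1 h))
  have hDV : ∀ x ∈ D, x ∈ V := by
    intro x hx
    obtain ⟨a, s, hs, rfl⟩ := hD x hx
    rw [← V.valuation_le_one_iff, map_mul, map_inv₀, hu s hs, inv_one, mul_one]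
    exact (V.valuation_le_one_iff _).2 (hV a).1
  obtain ⟨a, haq, hak⟩ := SetLike.exists_of_lt hq.1
  have ha0 : f a ≠ 0 := fun h => hak (RingHom.mem_ker.2 h)
  have hav : (f a)⁻¹ ∉ V := by
    intro h
    rw [← V.valuation_le_one_iff, map_inv₀] at h
    have h1 : V.valuation (f a) < 1 := (hV a).2.2 haq
    have h0 : V.valuation (f a) ≠ 0 := (V.valuation.ne_zero_iff).2 ha0
    exact absurd h (not_le.2 ((one_lt_inv₀ (zero_lt_iff.2 h0)).2 h1))
  obtain ⟨S, hS, hspan⟩ := exists_span D hrk (f a) (hfD a) ha0 V hDV hav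
  have hker : RingHom.ker (resHom f V fun a => (hV a).1) = q := ker_resHom f q V hV
  let r : {y // y ∈ S} → IsLocalRing.ResidueField V :=
    fun y => IsLocalRing.residue V ⟨y.1, hS y.1 y.2⟩
  refine ⟨S.attach.image r, fun x => ?_⟩
  obtain ⟨⟨x0, hx0⟩, rfl⟩ := IsLocalRing.residue_surjective x
  obtain ⟨c, hc, hlt⟩ := hspan x0 hx0
  choose g s hs hgs using fun y => hD (c y) (hc y)
  have ht : ∏ y ∈ S, s y ∉ q := by
    intro h
    obtain ⟨y, -, hy⟩ := (Ideal.IsPrime.prod_mem_iff).1 h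
    exact hs y hy
  have hG : ∀ y ∈ S, f (∏ y ∈ S, s y) * c y = f (g y * ∏ z ∈ S.erase y, s z) := by
    intro y hy
    have h1 : f (s y) ≠ 0 := by
      intro h
      have h2 := hu (s y) (hs y)
      rw [h, map_zero] at h2
      exact zero_ne_one h2
    rw [← Finset.mul_prod_erase S s hy, map_mul, map_mul, hgs y]
    field_simp
  have hmem : ∀ b, f b ∈ V := fun b => (hV b).1
  refine ⟨∏ y ∈ S, s y, fun z => ∑ y ∈ S.attach with r y = z, g y.1 * ∏ w ∈ S.erase y.1, s w,
    fun h => ht (hker ▸ RingHom.mem_ker.2 h), ?_⟩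
  have key : resHom f V (fun a => (hV a).1) (∏ y ∈ S, s y) * IsLocalRing.residue V ⟨x0, hx0⟩ =
      ∑ y ∈ S.attach, resHom f V (fun a => (hV a).1) (g y.1 * ∏ w ∈ S.erase y.1, s w) * r y := by
    rw [← sub_eq_zero]
    have e : resHom f V (fun a => (hV a).1) (∏ y ∈ S, s y) *
        IsLocalRing.residue V ⟨x0, hx0⟩ - ∑ y ∈ S.attach, resHom f V (fun a => (hV a).1)
          (g y.1 * ∏ w ∈ S.erase y.1, s w) * r y =
        IsLocalRing.residue V (⟨f (∏ y ∈ S, s y), hmem _⟩ * ⟨x0, hx0⟩ -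
          ∑ y ∈ S.attach, ⟨f (g y.1 * ∏ w ∈ S.erase y.1, s w), hmem _⟩ *
            ⟨y.1, hS y.1 y.2⟩) := by
      rw [map_sub, map_mul, map_sum]
      congr 1
    rw [e, IsLocalRing.residue_eq_zero_iff, ValuationSubring.valuation_lt_one_iff]
    have e2 : (((⟨f (∏ y ∈ S, s y), hmem _⟩ * ⟨x0, hx0⟩ -
          ∑ y ∈ S.attach, ⟨f (g y.1 * ∏ w ∈ S.erase y.1, s w), hmem _⟩ *
            ⟨y.1, hS y.1 y.2⟩ : V)) : E) =
        f (∏ y ∈ S, s y) * (x0 - ∑ y ∈ S, c y * y) := by
      push_cast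
      rw [mul_sub, Finset.mul_sum, ← Finset.sum_attach S]
      congr 1
      refine Finset.sum_congr rfl fun y _ => ?_
      rw [← mul_assoc, hG y.1 y.2]
    rw [e2, map_mul, mul_comm]
    exact mul_lt_one_of_lt_of_le hlt ((V.valuation_le_one_iff _).2 (hmem _))
  rw [key]
  symm
  apply Finset.sum_image'
  intro y _
  rw [map_sum, Finset.sum_mul]
  refine Finset.sum_congr rfl fun j hj => ?_
  rw [(Finset.mem_filter.1 hj).2]

end Pool.Agent.NNO
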