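import Pool.Agent.NNO.XA
import Pool.Agent.NNO.XB
import Pool.Agent.NNO.XC
import Pool.Agent.NNO.Few
import Pool.Agent.NNO.Ded
import Pool.Agent.NNO.CharP
import Pool.Agent.NNO.Hgt
import Pool.Agent.NNO.Dom
import Pool.Agent.NIPFields.KSW

/-!
# NIP fields and noetherian domains
-/

set_option autoImplicit false

namespace Pool.Agent.NNO

open FirstOrder FirstOrder.Language FirstOrder.Ring Pool.Agent.NIPFields

universe u

/-- If `P` is not maximal, a finite extension of `Frac (A/P)` contains elements which are no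
`ℓ`-th powers. -/
theorem exists_ne_pow {A : Type u} [CommRing A] [IsNoetherianRing A] {E : Type u} [Field E]
    (f : A →+* E) (hf : FinOver f) (q₀ : Ideal A) [q₀.IsPrime] (h : RingHom.ker f < q₀) (ℓ : ℕ)
    (hℓ : 2 ≤ ℓ) : ∃ e : E, ∀ c : E, c ^ ℓ ≠ e := by
  have hk : (RingHom.ker f).IsPrime := RingHom.ker_isPrime f
  obtain ⟨q, hq, hcov, -⟩ := exists_cov (RingHom.ker f) q₀ h
  obtain ⟨V, hV⟩ := exists_dmt f q hcov.1.le
  obtain ⟨π, -, hπ⟩ := exists_val_ne_pow f hf q hcov V hV ℓ hℓ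
  exact ⟨π, fun c hc => hπ c (by rw [← hc, map_pow])⟩

/-- Two valuation rings with different centres of height one are independent. -/
theorem sup_eq_top {A : Type u} [CommRing A] [IsNoetherianRing A] {E : Type u} [Field E]
    (f : A →+* E) (hf : FinOver f) (q q' : Ideal A) [q.IsPrime] [q'.IsPrime]
    (hq : Cov (RingHom.ker f) q) (hq' : Cov (RingHom.ker f) q') (hne : q ≠ q')
    (V V' : ValuationSubring E) (hV : Dmt f q V) (hV' : Dmt f q' V') : V ⊔ V' = ⊤ := by
  rcases eq_or_top f hf q hq V hV (V ⊔ V') le_sup_left with h | h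
  · exfalso
    have h1 : V' ≤ V := by rw [← h]; exact le_sup_right
    rcases eq_or_top f hf q' hq' V' hV' V h1 with h2 | h2
    · apply hne
      ext a
      rw [← (hV a).2, ← (hV' a).2, h2]
    · obtain ⟨a, ha, ha'⟩ := SetLike.exists_of_lt hq.1
      have h3 := (hV a).2.2 ha
      have h4 : f a ≠ 0 := fun h => ha' (RingHom.mem_ker.2 h)
      have h5 : (f a)⁻¹ ∈ V := by rw [h2]; trivial
      have h6 := (V.valuation_le_one_iff _).2 h5
      rw [map_inv₀] at h6
      have h7 : 0 < V.valuation (f a) := (Valuation.pos_iff _).2 h4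
      rw [inv_le_one₀ h7] at h6
      exact absurd h3 (not_lt.2 h6)
  · exact h

/-- The pattern for dimension at least two. -/
theorem shatE_of_dim {L : Type u} [Field L] {ℓ : ℕ} (hℓ : ℓ.Prime)
    (hℓ0 : (ℓ : L) ≠ 0) {A : Type u} [CommRing A] [IsDomain A] [IsNoetherianRing A] [Algebra A L]
    [IsFractionRing A L] (p₁ p₂ : Ideal A) [p₁.IsPrime] [p₂.IsPrime] (h1 : p₁ ≠ ⊥)
    (h2 : p₁ < p₂) (n : ℕ) : ShatE ℓ L n := by
  classical
  have hker : RingHom.ker (algebraMap A L) = ⊥ :=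
    (RingHom.injective_iff_ker_eq_bot _).1 (IsFractionRing.injective A L)
  have hT : ∀ n : ℕ, ∃ T : Finset (Ideal A), T.card = n ∧
      ∀ t ∈ T, t.IsPrime ∧ Cov ⊥ t ∧ t < p₂ := by
    intro n
    induction n with
    | zero => exact ⟨∅, rfl, by simp⟩
    | succ n ih =>
      obtain ⟨T, hc, hT⟩ := ih
      obtain ⟨q, hq, hcov, hlt, hmem⟩ := exists_cov_notMem p₁ p₂ h1 h2 T
        fun t ht => ⟨(hT t ht).1, (hT t ht).2.1⟩
      refine ⟨insert q T, by rw [Finset.card_insert_of_notMem hmem, hc], fun t ht => ?_⟩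
      rcases Finset.mem_insert.1 ht with rfl | ht
      · exact ⟨hq, hcov, hlt⟩
      · exact hT t ht
  obtain ⟨T, hcard, hT⟩ := hT n
  let e : Fin n ≃ T := (Fintype.equivFinOfCardEq (by rw [Fintype.card_coe, hcard])).symm
  have hprime : ∀ i, (e i : Ideal A).IsPrime := fun i => (hT _ (e i).2).1
  have hcov : ∀ i, Cov (RingHom.ker (algebraMap A L)) (e i : Ideal A) := fun i => by
    rw [hker]
    exact (hT _ (e i).2).2.1
  have hlt : ∀ i, (e i : Ideal A) < p₂ := fun i => (hT _ (e i).2).2.2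
  have hdom : ∀ i, ∃ V : ValuationSubring L, Dmt (algebraMap A L) (e i) V := fun i =>
    exists_dmt _ _ (hcov i).1.le
  choose V hV using hdom
  refine shatE_of_vals hℓ hℓ0 n V (fun i j hij => ?_) (fun i => ?_) (fun i => ?_)
  · refine sup_eq_top (algebraMap A L) finOver_algebraMap (e i) (e j) (hcov i) (hcov j) ?_ _ _
      (hV i) (hV j)
    intro h
    exact hij (e.injective (Subtype.ext h))
  · have hfo := finOver_resHom (algebraMap A L) finOver_algebraMap (e i) (hcov i) (V i) (hV i)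
    have hk := ker_resHom (algebraMap A L) (e i) (V i) (hV i)
    obtain ⟨x, hx⟩ := exists_ne_pow _ hfo p₂ (by rw [hk]; exact hlt i) ℓ hℓ.two_le
    obtain ⟨w, rfl⟩ := IsLocalRing.residue_surjective x
    have hw : ∀ c : L, ¬ (V i).valuation ((w : L) - c ^ ℓ) < 1 := by
      intro c hc
      have hcV : c ∈ V i := by
        have h3 : c ^ ℓ ∈ V i := by
          have h4 : (w : L) - ((w : L) - c ^ ℓ) ∈ V i :=
            sub_mem w.2 (((V i).valuation_le_one_iff _).1 hc.le)
          rwa [sub_sub_cancel] at h4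
        rw [← (V i).valuation_le_one_iff] at h3 ⊢
        rw [map_pow] at h3
        exact (pow_le_one_iff hℓ.ne_zero).1 h3
      apply hx (IsLocalRing.residue (V i) ⟨c, hcV⟩)
      rw [← map_pow, ← sub_eq_zero, ← map_sub, IsLocalRing.residue_eq_zero_iff,
        ValuationSubring.valuation_lt_one_iff]
      have h5 : (((⟨c, hcV⟩ : V i) ^ ℓ - w : V i) : L) = -((w : L) - c ^ ℓ) := by
        push_cast; ring
      rw [h5, Valuation.map_neg]
      exact hc
    refine ⟨w, ?_, hw⟩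
    have h6 : (V i).valuation (w : L) ≤ 1 := ((V i).valuation_le_one_iff _).2 w.2
    refine le_antisymm h6 (not_lt.1 fun h7 => ?_)
    apply hw 0
    rwa [zero_pow hℓ.ne_zero, sub_zero]
  · exact exists_val_ne_pow (algebraMap A L) finOver_algebraMap (e i) (hcov i) (V i) (hV i) ℓ
      hℓ.two_le

/-- The pattern for Dedekind domains. -/
theorem shatE_of_ded {L : Type u} [Field L] {ℓ : ℕ}
    (hℓ : ℓ.Prime) (hℓ0 : (ℓ : L) ≠ 0) {A : Type u} [CommRing A]
    [IsDedekindDomain A] [Algebra A L] [IsFractionRing A L]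
    (hinf : {m : Ideal A | m.IsPrime ∧ m ≠ ⊥ ∧ ∃ a : A, ∀ c : A, c ^ ℓ - a ∉ m}.Infinite)
    (n : ℕ) : ShatE ℓ L n := by
  classical
  have hker : RingHom.ker (algebraMap A L) = ⊥ :=
    (RingHom.injective_iff_ker_eq_bot _).1 (IsFractionRing.injective A L)
  obtain ⟨T, hTs, hcard⟩ := Set.Infinite.exists_subset_card_eq hinf n
  let e : Fin n ≃ T := (Fintype.equivFinOfCardEq (by rw [Fintype.card_coe, hcard])).symm
  have hmem : ∀ i, (e i : Ideal A).IsPrime ∧ (e i : Ideal A) ≠ ⊥ ∧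
      ∃ a : A, ∀ c : A, c ^ ℓ - a ∉ (e i : Ideal A) := fun i => hTs (e i).2
  have hprime : ∀ i, (e i : Ideal A).IsPrime := fun i => (hmem i).1
  have hcov : ∀ i, Cov (RingHom.ker (algebraMap A L)) (e i : Ideal A) := fun i => by
    rw [hker]
    refine ⟨bot_lt_iff_ne_bot.2 (hmem i).2.1, fun r hr _ hle => ?_⟩
    by_cases hr0 : r = ⊥
    · exact Or.inl hr0
    · exact Or.inr ((hr.isMaximal hr0).eq_of_le (hprime i).ne_top hle)
  have hdom : ∀ i, ∃ V : ValuationSubring L, Dmt (algebraMap A L) (e i) V := fun i =>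
    exists_dmt _ _ (hcov i).1.le
  choose V hV using hdom
  refine shatE_of_vals hℓ hℓ0 n V (fun i j hij => ?_) (fun i => ?_) (fun i => ?_)
  · refine sup_eq_top (algebraMap A L) finOver_algebraMap (e i) (e j) (hcov i) (hcov j) ?_ _ _
      (hV i) (hV j)
    intro h
    exact hij (e.injective (Subtype.ext h))
  · obtain ⟨a, ha⟩ := (hmem i).2.2
    have ha' : a ∉ (e i : Ideal A) := by
      intro h
      apply ha 0
      rw [zero_pow hℓ.ne_zero, zero_sub]
      exact neg_mem h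
    have ha1 : (V i).valuation (algebraMap A L a) = 1 := by
      refine le_antisymm (((V i).valuation_le_one_iff _).2 (hV i a).1) (not_lt.1 fun h => ?_)
      exact ha' ((hV i a).2.1 h)
    refine ⟨algebraMap A L a, ha1, fun c hc => ?_⟩
    have hcV : c ∈ V i := by
      have h3 : c ^ ℓ ∈ V i := by
        have h4 : algebraMap A L a - (algebraMap A L a - c ^ ℓ) ∈ V i :=
          sub_mem (hV i a).1 (((V i).valuation_le_one_iff _).1 hc.le)
        rwa [sub_sub_cancel] at h4
      rw [← (V i).valuation_le_one_iff] at h3 ⊢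
      rw [map_pow] at h3
      exact (pow_le_one_iff hℓ.ne_zero).1 h3
    obtain ⟨b, hb⟩ := exists_sub_lt (e i : Ideal A) (hmem i).2.1 (V i) (hV i) c hcV
    apply ha b
    rw [← (hV i _).2, map_sub, map_pow]
    have h5 : (V i).valuation (c ^ ℓ - algebraMap A L b ^ ℓ) < 1 := by
      have h6 : c - algebraMap A L b ∣ c ^ ℓ - algebraMap A L b ^ ℓ := sub_dvd_pow_sub_pow _ _ _
      have h7 : c ^ ℓ - algebraMap A L b ^ ℓ = (∑ k ∈ Finset.range ℓ,
          c ^ k * algebraMap A L b ^ (ℓ - 1 - k)) * (c - algebraMap A L b) :=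
        (geom_sum₂_mul c (algebraMap A L b) ℓ).symm
      rw [h7, map_mul]
      have h8 : (V i).valuation (∑ k ∈ Finset.range ℓ,
          c ^ k * algebraMap A L b ^ (ℓ - 1 - k)) ≤ 1 := by
        rw [(V i).valuation_le_one_iff]
        exact sum_mem fun k _ => mul_mem (pow_mem hcV _) (pow_mem (hV i b).1 _)
      exact ((mul_le_mul' h8 le_rfl).trans_eq (one_mul _)).trans_lt hb
    have h9 : algebraMap A L b ^ ℓ - algebraMap A L a =
        -((algebraMap A L a - c ^ ℓ) + (c ^ ℓ - algebraMap A L b ^ ℓ)) := by ring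
    rw [h9, Valuation.map_neg]
    exact (Valuation.map_add _ _ _).trans_lt (max_lt hc h5)
  · exact exists_val_ne_pow (algebraMap A L) finOver_algebraMap (e i) (hcov i) (V i) (hV i) ℓ
      hℓ.two_le

/-- The theorem on the dimension. -/
theorem dim_le_one {L : Type u} [Field L] [CompatibleRing L] (hL : NIP L) {ℓ : ℕ} (hℓ : ℓ.Prime)
    (hℓ0 : (ℓ : L) ≠ 0) {A : Type u} [CommRing A] [IsDomain A] [IsNoetherianRing A] [Algebra A L]
    [IsFractionRing A L] (p₁ p₂ : Ideal A) [p₁.IsPrime] [p₂.IsPrime] (h1 : p₁ ≠ ⊥)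
    (h2 : p₁ < p₂) : False := by
  obtain ⟨n, hn⟩ := hL.exists_not_shatE ℓ
  exact hn (shatE_of_dim hℓ hℓ0 p₁ p₂ h1 h2 n)

/-- The theorem on Dedekind domains. -/
theorem finite_ne_pow {L : Type u} [Field L] [CompatibleRing L] (hL : NIP L) {ℓ : ℕ}
    (hℓ : ℓ.Prime) (hℓ0 : (ℓ : L) ≠ 0) {A : Type u} [CommRing A]
    [IsDedekindDomain A] [Algebra A L] [IsFractionRing A L] :
    {m : Ideal A | m.IsPrime ∧ m ≠ ⊥ ∧ ∃ a : A, ∀ c : A, c ^ ℓ - a ∉ m}.Finite := by
  by_contra hinf
  obtain ⟨n, hn⟩ := hL.exists_not_shatE ℓ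
  exact hn (shatE_of_ded hℓ hℓ0 hinf n)

end Pool.Agent.NNO
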