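import Mathlib

/-!
# NIP fields and noetherian domains: definitions

THEOREM (library `NNO`, helper47; problem MP_3554b5_lc). Let `K` be an NIP field, `L` a finite
extension of `K` and `A` a noetherian domain with fraction field `L`. Then `dim A ≤ 1`; if the
characteristic is positive, then `A` is a field; if `A` is a Dedekind domain, then for every prime
`ℓ` which is not zero in `L` all but finitely many maximal ideals `m` satisfy `A/m = (A/m) ^ ℓ`.

Idea. Let `P < q` be neighbouring primes of `A` (no prime strictly between them), `E` a finite
extension of `Frac (A/P)` and `V` a valuation ring of `E` with centre `q`. The length bound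
`length (C / a C) ≤ rank C * length (D / a D)` (Krull and Akizuki) for the local ring `D` of `A/P`
at `q/P` and any torsion free `D`-module `C` shows: `b ^ n` divides `a` in `V` for bounded `n` only
(`b` in the maximal ideal of `V`), so `V` is a maximal subring, its value group is not divisible
by `ℓ`, and its residue field is finite over `Frac (A/q)`. If `q` is not maximal, the same facts
for `q < q'` show that the residue field contains elements which are no `ℓ`-th powers. If `A` has
dimension at least `2`, there are infinitely many primes of height one below a prime of height at
least `2`, and the valuation rings are pairwise independent; such a field has the independence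
property. -/

set_option autoImplicit false

namespace Pool.Agent.NNO

universe u v

/-- `E` is spanned by a finite set over the field of fractions of the image of `A`. -/
def FinOver {A : Type u} [CommRing A] {E : Type v} [Field E] (f : A →+* E) : Prop :=
  ∃ S : Finset E, ∀ x : E, ∃ (s : A) (c : E → A), f s ≠ 0 ∧ f s * x = ∑ y ∈ S, f (c y) * y

/-- `q` is a prime above `P` and there is no prime strictly between them. -/
def Cov {A : Type u} [CommRing A] (P q : Ideal A) : Prop :=
  P < q ∧ ∀ r : Ideal A, r.IsPrime → P ≤ r → r ≤ q → r = P ∨ r = q

/-- The valuation ring `V` of `E` contains the image of `A` and has centre `q` on it. -/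
def Dmt {A : Type u} [CommRing A] {E : Type v} [Field E] (f : A →+* E) (q : Ideal A)
    (V : ValuationSubring E) : Prop :=
  ∀ a : A, f a ∈ V ∧ (V.valuation (f a) < 1 ↔ a ∈ q)

/-- The map to the residue field. -/
noncomputable def resHom {A : Type u} [CommRing A] {E : Type v} [Field E] (f : A →+* E)
    (V : ValuationSubring E) (hV : ∀ a, f a ∈ V) : A →+* IsLocalRing.ResidueField V :=
  (IsLocalRing.residue V).comp (f.codRestrict V hV)

end Pool.Agent.NNO
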