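import Pool.Agent.NNO.Few

/-!
# Independent valuation rings of an NIP field
-/

set_option autoImplicit false

namespace Pool.Agent.NNO

open FirstOrder FirstOrder.Language FirstOrder.Ring Pool.Agent.NIPFields

universe u

/-- A set of pairwise independent valuation rings of an NIP field contains only finitely many whose
residue field and whose value group are not `ℓ`-divisible. -/
theorem finite_of_indep {L : Type u} [Field L] [CompatibleRing L] (hL : NIP L) {ℓ : ℕ}
    (hℓ : ℓ.Prime) (hℓ0 : (ℓ : L) ≠ 0) (S : Set (ValuationSubring L))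
    (hS : ∀ V ∈ S, ∀ W ∈ S, V ≠ W → V ⊔ W = ⊤) :
    {V ∈ S | (∃ a : IsLocalRing.ResidueField V, ∀ c, c ^ ℓ ≠ a) ∧
      ∃ x : L, ∀ c : L, V.valuation c ^ ℓ ≠ V.valuation x}.Finite := by
  by_contra hinf
  obtain ⟨n, hn⟩ := few hL hℓ hℓ0
  obtain ⟨T, hTs, hcard⟩ := Set.Infinite.exists_subset_card_eq hinf n
  let e : Fin n ≃ T := (Fintype.equivFinOfCardEq (by rw [Fintype.card_coe, hcard])).symm
  have hmem : ∀ i, (e i : ValuationSubring L) ∈ {V ∈ S |
      (∃ a : IsLocalRing.ResidueField V, ∀ c, c ^ ℓ ≠ a) ∧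
      ∃ x : L, ∀ c : L, V.valuation c ^ ℓ ≠ V.valuation x} := fun i => hTs (e i).2
  refine hn (fun i => (e i : ValuationSubring L)) (fun i j hij => ?_) (fun i => ?_) (fun i => ?_)
  · refine hS _ (hmem i).1 _ (hmem j).1 fun h => hij (e.injective (Subtype.ext h))
  · obtain ⟨a, ha⟩ := (hmem i).2.1
    obtain ⟨w, rfl⟩ := IsLocalRing.residue_surjective a
    have hw0 : IsLocalRing.residue _ w ≠ 0 := fun h => by
      apply ha 0
      rw [h, zero_pow hℓ.ne_zero]
    have hu : IsUnit w := (IsLocalRing.residue_ne_zero_iff_isUnit w).1 hw0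
    have hw1 : (e i : ValuationSubring L).valuation (w : L) = 1 :=
      ((e i : ValuationSubring L).valuation_eq_one_iff w).1 hu
    refine ⟨w, hw1, fun c hc => ?_⟩
    have hc1 : (e i : ValuationSubring L).valuation (c ^ ℓ) ≤ 1 := by
      have h4 : c ^ ℓ = (w : L) - ((w : L) - c ^ ℓ) := by ring
      rw [h4]
      refine (Valuation.map_sub _ _ _).trans (max_le hw1.le hc.le)
    have hcV : c ∈ (e i : ValuationSubring L) := by
      rw [← ValuationSubring.valuation_le_one_iff]
      rw [map_pow] at hc1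
      exact (pow_le_one_iff_of_nonneg zero_le hℓ.ne_zero).1 hc1
    apply ha (IsLocalRing.residue _ ⟨c, hcV⟩)
    rw [← map_pow, ← sub_eq_zero, ← map_sub, IsLocalRing.residue_eq_zero_iff,
      ValuationSubring.valuation_lt_one_iff]
    show (e i : ValuationSubring L).valuation (c ^ ℓ - (w : L)) < 1
    rw [Valuation.map_sub_swap]
    exact hc
  · obtain ⟨x, hx⟩ := (hmem i).2.2
    refine ⟨x, ?_, fun c h => hx c h.symm⟩
    rintro rfl
    apply hx 0
    rw [map_zero, zero_pow hℓ.ne_zero]

end Pool.Agent.NNO
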