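import Pool.Agent.NNO.Len

/-!
# The length bound of Krull and Akizuki, finitely generated case (package NNO-KA)
-/

set_option autoImplicit false

namespace Pool.Agent.NNO

universe u

private theorem kA_free {D : Type u} [CommRing D] {F : Type u} [AddCommGroup F] [Module D F]
    {ι : Type u} [Fintype ι] (b : Module.Basis ι D F) (a : D) :
    Module.length D (F ⧸ LinearMap.range (LinearMap.lsmul D F a)) =
      (Fintype.card ι : ℕ∞) * Module.length D (D ⧸ Ideal.span {a}) := by
  classical
  have h1 : (LinearMap.range (LinearMap.lsmul D F a)).map (b.equivFun : F →ₗ[D] (ι → D)) =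
      Submodule.pi Set.univ (fun _ : ι => (Ideal.span {a} : Ideal D)) := by
    ext y
    rw [Submodule.mem_map, Submodule.mem_pi]
    constructor
    · rintro ⟨x, ⟨z, rfl⟩, rfl⟩ i -
      rw [LinearMap.lsmul_apply, LinearEquiv.coe_coe, map_smul, Pi.smul_apply, smul_eq_mul]
      exact Ideal.mul_mem_right _ _ (Ideal.subset_span rfl)
    · intro hy
      have h2 : ∀ i, ∃ c : D, y i = a * c := fun i =>
        Ideal.mem_span_singleton.1 (hy i (Set.mem_univ i))
      choose c hc using h2
      refine ⟨a • b.equivFun.symm c, ⟨_, rfl⟩, ?_⟩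
      rw [LinearEquiv.coe_coe, map_smul, LinearEquiv.apply_symm_apply]
      funext i
      rw [Pi.smul_apply, smul_eq_mul, hc i]
  rw [(Submodule.Quotient.equiv _ _ b.equivFun h1).length_eq,
    (Submodule.quotientPi fun _ : ι => (Ideal.span {a} : Ideal D)).length_eq,
    Module.length_pi_of_fintype, Finset.sum_const, Finset.card_univ, nsmul_eq_mul]

private theorem kA_free_submodule {D : Type u} [CommRing D] [IsDomain D] {C : Type u}
    [AddCommGroup C] [Module D C] [Module.Finite D C] {d : ℕ} (hd : Module.rank D C ≤ d) :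
    ∃ (ι : Type u) (_ : Fintype ι) (F : Submodule D C) (_ : Module.Basis ι D F) (s : D),
      Fintype.card ι ≤ d ∧ s ≠ 0 ∧ ∀ x : C, s • x ∈ F := by
  obtain ⟨t, ht1, ht2⟩ := exists_set_linearIndependent D C
  have ht3 : Cardinal.mk t ≤ d := ht1.trans_le hd
  have ht4 : Cardinal.mk t < Cardinal.aleph0 := ht3.trans_lt (Cardinal.natCast_lt_aleph0)
  have : Finite t := Cardinal.lt_aleph0_iff_finite.1 ht4
  let : Fintype t := Fintype.ofFinite t
  have hb : LinearIndependent D (fun x : t => (x : C)) := ht2
  have hr : Module.rank D (Submodule.span D (Set.range fun x : t => (x : C))) =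
      Module.rank D C := by
    rw [rank_span hb, Cardinal.mk_range_eq _ Subtype.val_injective]
    exact ht1
  have hq : Module.rank D (C ⧸ Submodule.span D (Set.range fun x : t => (x : C))) = 0 := by
    have h1 := Submodule.rank_quotient_add_rank (Submodule.span D (Set.range fun x : t => (x : C)))
    rw [hr] at h1
    have h2 : Module.rank D C < Cardinal.aleph0 := hd.trans_lt (Cardinal.natCast_lt_aleph0)
    have h3 : Module.rank D (C ⧸ Submodule.span D (Set.range fun x : t => (x : C))) +
        Module.rank D C = 0 + Module.rank D C := by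
      rw [h1, zero_add]
    exact Cardinal.eq_of_add_eq_add_right h3 h2
  have htor : Module.IsTorsion D (C ⧸ Submodule.span D (Set.range fun x : t => (x : C))) := by
    intro x
    obtain ⟨c, hc, hx⟩ := rank_eq_zero_iff.1 hq x
    exact ⟨⟨c, mem_nonZeroDivisors_of_ne_zero hc⟩, hx⟩
  obtain ⟨s, hs1, hs2⟩ := Submodule.annihilator_top_inter_nonZeroDivisors htor
  refine ⟨t, inferInstance, _, Module.Basis.span hb, s, ?_, nonZeroDivisors.ne_zero hs2, ?_⟩
  · rw [← Nat.cast_le (α := Cardinal.{u}), ← Cardinal.mk_fintype]
    exact ht3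
  · intro x
    rw [← Submodule.Quotient.mk_eq_zero, Submodule.Quotient.mk_smul]
    exact (Submodule.mem_annihilator.1 hs1) _ Submodule.mem_top

private theorem kA_cancel {x y z : ℕ∞} (hz : z ≠ ⊤) (hy : y ≠ ⊤)
    (h : ∀ n : ℕ, (n : ℕ∞) * x ≤ n * y + z) : x ≤ y := by
  lift z to ℕ using hz
  lift y to ℕ using hy
  have h1 := h 1
  have hx : x ≠ ⊤ := by
    rintro rfl
    rw [Nat.cast_one, one_mul, one_mul, top_le_iff, ← Nat.cast_add] at h1
    exact ENat.natCast_ne_top _ h1
  lift x to ℕ using hx
  have h2 := h (z + 1)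
  norm_cast at h2 ⊢
  by_contra h3
  push Not at h3
  have h4 : (z + 1) * (y + 1) ≤ (z + 1) * x := Nat.mul_le_mul_left _ h3
  rw [mul_add, mul_one] at h4
  omega

/-- PROOF. Let `F ≤ C` be the span of a maximal linearly independent family; `F` is free of rank
`r ≤ d` (`hd`), and every element of `C` has a nonzero multiple in `F`; `C` is finitely generated,
so there is `s ≠ 0` with `s • C ≤ F`. Let `f = lsmul a` on `C` (injective: torsion free) and `g =
lsmul a` on `F`. For all `n`: `n * length (C / a C) = length (C / a ^ n C) ≤ length (C / a ^ n F)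
= length (C / F) + length (F / a ^ n F) = length (C / F) + n * length (F / a F)`
(`length_range_pow` twice, `Module.length_le_of_surjective`, `Module.length_eq_add_of_exact` for
`0 → F / a ^ n F → C / a ^ n F → C / F → 0`). Here `length (C / F) ≠ ⊤`
(`length_ne_top_of_torsion`) and `length (F / a F) = r * length (D / a D)` with `length (D / a D)
≠ ⊤`: `F ≃ (Fin r → D)` (or `r` copies; `Module.length_pi`, or induction), `F / a F ≃ (D / a D)
^ r`. Dividing by `n` and letting `n → ∞` (all quantities are natural numbers: `n * x ≤ c + n * y`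
for all `n` implies `x ≤ y`; take `n = c + 1`) gives the claim. -/
theorem length_le_of_finite {D : Type u} [CommRing D] [IsDomain D] [IsNoetherianRing D]
    [Ring.DimensionLEOne D] {C : Type u} [AddCommGroup C] [Module D C] [Module.IsTorsionFree D C]
    [Module.Finite D C] {d : ℕ} (hd : Module.rank D C ≤ d) {a : D} (ha : a ≠ 0) :
    Module.length D (C ⧸ LinearMap.range (LinearMap.lsmul D C a)) ≤
      d * Module.length D (D ⧸ Ideal.span {a}) := by
  obtain ⟨ι, _, F, b, s, hι, hs, hF⟩ := kA_free_submodule hd
  have hlen : Module.length D (D ⧸ Ideal.span {a}) ≠ ⊤ := by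
    refine length_ne_top_of_torsion ha fun m => ?_
    obtain ⟨m, rfl⟩ := Submodule.mkQ_surjective _ m
    rw [Submodule.mkQ_apply, ← Submodule.Quotient.mk_smul, Submodule.Quotient.mk_eq_zero]
    exact Ideal.mul_mem_right _ _ (Ideal.subset_span rfl)
  have hCF : Module.length D (C ⧸ F) ≠ ⊤ := by
    refine length_ne_top_of_torsion hs fun m => ?_
    obtain ⟨m, rfl⟩ := Submodule.mkQ_surjective _ m
    rw [Submodule.mkQ_apply, ← Submodule.Quotient.mk_smul, Submodule.Quotient.mk_eq_zero]
    exact hF m
  have hf : Function.Injective (LinearMap.lsmul D C a) := LinearMap.lsmul_injective ha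
  have hg : Function.Injective (LinearMap.lsmul D F a) := LinearMap.lsmul_injective ha
  have key : ∀ n : ℕ, (n : ℕ∞) * Module.length D (C ⧸ LinearMap.range (LinearMap.lsmul D C a)) ≤
      n * ((Fintype.card ι : ℕ∞) * Module.length D (D ⧸ Ideal.span {a})) +
        Module.length D (C ⧸ F) := by
    intro n
    rw [← kA_free b a, ← length_range_pow _ hf n, ← length_range_pow _ hg n]
    have hcomm : ∀ x : F, F.subtype (((LinearMap.lsmul D F a) ^ n) x) =
        ((LinearMap.lsmul D C a) ^ n) (F.subtype x) := by
      intro x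
      induction n with
      | zero => rfl
      | succ n ih =>
        rw [pow_succ', pow_succ', Module.End.mul_apply, Module.End.mul_apply, ← ih,
          LinearMap.lsmul_apply, LinearMap.lsmul_apply, map_smul]
    let P : Submodule D C := F.map ((LinearMap.lsmul D C a) ^ n)
    have hP1 : P ≤ LinearMap.range ((LinearMap.lsmul D C a) ^ n) := LinearMap.map_le_range
    have hP2 : P ≤ F := by
      rintro _ ⟨x, hx, rfl⟩
      have h1 := hcomm ⟨x, hx⟩
      rw [Submodule.subtype_apply, Submodule.subtype_apply] at h1
      rw [← h1]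
      exact Subtype.property _
    have h2 : LinearMap.range ((LinearMap.lsmul D F a) ^ n) ≤ P.comap F.subtype := by
      rintro _ ⟨x, rfl⟩
      rw [Submodule.mem_comap, hcomm]
      exact ⟨_, x.2, rfl⟩
    have h3 : Function.Injective (Submodule.mapQ _ _ F.subtype h2) := by
      rw [← LinearMap.ker_eq_bot, LinearMap.ker_eq_bot']
      intro q hq
      obtain ⟨x, rfl⟩ := Submodule.mkQ_surjective _ q
      rw [Submodule.mkQ_apply] at hq ⊢
      rw [Submodule.mapQ_apply, Submodule.Quotient.mk_eq_zero] at hq
      obtain ⟨z, hz1, hz2⟩ := hq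
      rw [Submodule.Quotient.mk_eq_zero]
      refine ⟨⟨z, hz1⟩, Subtype.val_injective ?_⟩
      have h4 := hcomm ⟨z, hz1⟩
      rw [Submodule.subtype_apply, Submodule.subtype_apply] at h4
      rw [h4]
      exact hz2
    have h5 : Function.Exact (Submodule.mapQ _ _ F.subtype h2) (Submodule.factor hP2) := by
      intro q
      obtain ⟨x, rfl⟩ := Submodule.mkQ_surjective _ q
      rw [Submodule.factor_mk, Submodule.mkQ_apply, Submodule.Quotient.mk_eq_zero]
      constructor
      · intro hx
        exact ⟨Submodule.Quotient.mk ⟨x, hx⟩, rfl⟩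
      · rintro ⟨y, hy⟩
        obtain ⟨y, rfl⟩ := Submodule.mkQ_surjective _ y
        rw [Submodule.mkQ_apply, Submodule.mapQ_apply, Submodule.mkQ_apply,
          Submodule.Quotient.eq] at hy
        have h6 := hP2 hy
        have h7 : F.subtype y ∈ F := y.2
        have h8 := Submodule.sub_mem _ h7 h6
        rwa [sub_sub_cancel] at h8
    rw [← Module.length_eq_add_of_exact _ _ h3 (Submodule.factor_surjective hP2) h5]
    exact Module.length_le_of_surjective (Submodule.factor hP1) (Submodule.factor_surjective hP1)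
  refine (kA_cancel hCF ?_ key).trans ?_
  · exact WithTop.mul_ne_top (ENat.natCast_ne_top _) hlen
  · exact mul_le_mul_left (Nat.cast_le.2 hι) _

end Pool.Agent.NNO
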