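import Pool.Agent.NNO.KA

/-!
# The length bound of Krull and Akizuki, general case (package NNO-KB)
-/

set_option autoImplicit false

namespace Pool.Agent.NNO

universe u

/-- PROOF. The bound `B = d * length (D / a D)` is finite (`length_ne_top_of_torsion`), `B = (N :
ℕ)`. If the length of `C / a C` were larger than `N`, there would be a chain `a C ≤ C_0 < C_1 < …
< C_(N+1) ≤ C` of submodules (`Module.length` is the Krull dimension of the lattice of submodules
of the quotient, `LTSeries` of length `N + 1`; pull it back by `comap (mkQ)`). Choose `x_i ∈ C_(i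
+ 1)` not in `C_i`, `M = span {x_i}` (finitely generated). `M ⊓ a C` is finitely generated
(noetherian), so there is a finitely generated `M'` with `M ≤ M' ≤ C` and `M ⊓ a C ≤ a M'`. The
submodules `M ⊓ C_i` are strictly increasing and contain `M ⊓ a C = M ⊓ a M'`, so `M / (M ⊓ a M')`
has length at least `N + 1`; it embeds into `M' / a M'`, which has length at most `B` by
`length_le_of_finite` (the rank of `M'` is at most the rank of `C`, `Submodule.rank_le`). A
contradiction. (Any other proof is welcome.) -/
theorem length_le {D : Type u} [CommRing D] [IsDomain D] [IsNoetherianRing D]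
    [Ring.DimensionLEOne D] {C : Type u} [AddCommGroup C] [Module D C] [Module.IsTorsionFree D C]
    {d : ℕ} (hd : Module.rank D C ≤ d) {a : D} (ha : a ≠ 0) :
    Module.length D (C ⧸ LinearMap.range (LinearMap.lsmul D C a)) ≤
      d * Module.length D (D ⧸ Ideal.span {a}) := by
  rw [← WithBot.coe_le_coe, Module.coe_length]
  refine iSup_le fun p => ?_
  -- elements of the steps of the chain
  have h1 : ∀ i : Fin p.length, ∃ x : C,
      (LinearMap.range (LinearMap.lsmul D C a)).mkQ x ∈ p i.succ ∧
      (LinearMap.range (LinearMap.lsmul D C a)).mkQ x ∉ p i.castSucc := by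
    intro i
    have hstep : p i.castSucc < p i.succ := p.step i
    obtain ⟨y, hy1, hy2⟩ := SetLike.exists_of_lt hstep
    obtain ⟨x, rfl⟩ := Submodule.mkQ_surjective _ y
    exact ⟨x, hy1, hy2⟩
  choose x hx1 hx2 using h1
  obtain ⟨M, hM⟩ : ∃ M : Submodule D C, M = Submodule.span D (Set.range x) := ⟨_, rfl⟩
  have hfin : Module.Finite D M := by
    rw [hM]
    exact Module.Finite.span_of_finite D (Set.finite_range x)
  have hmem : ∀ i, x i ∈ M := fun i => by
    rw [hM]
    exact Submodule.subset_span ⟨i, rfl⟩
  have hle : LinearMap.range (LinearMap.lsmul D M a) ≤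
      (LinearMap.range (LinearMap.lsmul D C a)).comap M.subtype := by
    rintro _ ⟨m, rfl⟩
    exact ⟨(m : C), rfl⟩
  let φ := Submodule.mapQ _ _ M.subtype hle
  have hφ : ∀ i, φ ((LinearMap.range (LinearMap.lsmul D M a)).mkQ ⟨x i, hmem i⟩) =
      (LinearMap.range (LinearMap.lsmul D C a)).mkQ (x i) := fun i => rfl
  have hmono : StrictMono fun i => (p i).comap φ := by
    rw [Fin.strictMono_iff_lt_succ]
    intro i
    have hstep : p i.castSucc < p i.succ := p.step i
    refine lt_of_le_of_ne (Submodule.comap_mono hstep.le) fun h => hx2 i ?_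
    have h2 : (LinearMap.range (LinearMap.lsmul D M a)).mkQ ⟨x i, hmem i⟩ ∈
        (p i.succ).comap φ := by
      rw [Submodule.mem_comap, hφ]
      exact hx1 i
    rw [← h, Submodule.mem_comap, hφ] at h2
    exact h2
  have h3 := Order.LTSeries.length_le_krullDim
    (LTSeries.mk p.length (fun i => (p i).comap φ) hmono)
  rw [← Module.coe_length] at h3
  refine le_trans h3 (WithBot.coe_le_coe.2 ?_)
  exact length_le_of_finite ((Submodule.rank_le M).trans hd) ha

end Pool.Agent.NNO
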