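import Mathlib

/-!
# Lengths (package NNO-Len)
-/

set_option autoImplicit false

namespace Pool.Agent.NNO

universe u v

/-- PROOF. Induction on `n` (`n = 0`: the quotient by `⊤` has length `0`). Step: the sequence `0 →
M ⧸ range (f ^ n) → M ⧸ range (f ^ (n + 1)) → M ⧸ range f → 0` is exact, where the first map is
induced by `f` (`Submodule.mapQ`; it is injective because `f` is: `f x = f (f ^ n z)` gives `x = f
^ n z`) and the second one is `Submodule.factor` (`range (f ^ (n + 1)) ≤ range f`); use
`Module.length_eq_add_of_exact`. -/
theorem length_range_pow {R : Type u} [Ring R] {M : Type v} [AddCommGroup M] [Module R M]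
    (f : M →ₗ[R] M) (hf : Function.Injective f) (n : ℕ) :
    Module.length R (M ⧸ LinearMap.range (f ^ n)) =
      n * Module.length R (M ⧸ LinearMap.range f) := by
  induction n with
  | zero =>
    rw [pow_zero, Module.End.one_eq_id, LinearMap.range_id, Nat.cast_zero, zero_mul]
    exact Module.length_eq_zero
  | succ n ih =>
    have hle : LinearMap.range (f ^ (n + 1)) ≤ LinearMap.range f := by
      rintro _ ⟨z, rfl⟩
      rw [pow_succ', Module.End.mul_apply]
      exact ⟨_, rfl⟩
    have hcm : LinearMap.range (f ^ n) ≤ (LinearMap.range (f ^ (n + 1))).comap f := by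
      rintro _ ⟨z, rfl⟩
      rw [Submodule.mem_comap]
      exact ⟨z, by rw [pow_succ', Module.End.mul_apply]⟩
    have h1 : Function.Injective (Submodule.mapQ _ _ f hcm) := by
      rw [← LinearMap.ker_eq_bot, LinearMap.ker_eq_bot']
      intro q hq
      obtain ⟨x, rfl⟩ := Submodule.mkQ_surjective _ q
      rw [Submodule.mkQ_apply] at hq ⊢
      rw [Submodule.mapQ_apply, Submodule.Quotient.mk_eq_zero] at hq
      obtain ⟨z, hz⟩ := hq
      rw [pow_succ', Module.End.mul_apply] at hz
      rw [Submodule.Quotient.mk_eq_zero]
      exact ⟨z, hf hz⟩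
    have h2 := Submodule.factor_surjective hle
    have h3 : Function.Exact (Submodule.mapQ _ _ f hcm) (Submodule.factor hle) := by
      intro q
      obtain ⟨x, rfl⟩ := Submodule.mkQ_surjective _ q
      rw [Submodule.factor_mk, Submodule.mkQ_apply, Submodule.Quotient.mk_eq_zero]
      constructor
      · rintro ⟨y, rfl⟩
        exact ⟨Submodule.Quotient.mk y, rfl⟩
      · rintro ⟨y, hy⟩
        obtain ⟨y, rfl⟩ := Submodule.mkQ_surjective _ y
        rw [Submodule.mkQ_apply, Submodule.mapQ_apply, Submodule.mkQ_apply,
          Submodule.Quotient.eq] at hy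
        have h4 := hle hy
        have h5 : f y ∈ LinearMap.range f := ⟨y, rfl⟩
        have h6 := Submodule.sub_mem _ h5 h4
        rwa [sub_sub_cancel] at h6
    rw [Module.length_eq_add_of_exact _ _ h1 h2 h3, ih, Nat.cast_succ, add_mul, one_mul]

/-- A finitely generated torsion module over a noetherian domain of dimension one has finite
length.

PROOF. Let `I` be the annihilator of `M`; `s ∈ I`, `s ≠ 0`. The ring `D ⧸ I` is noetherian and
every prime of it is maximal (a prime of `D` containing `I ∋ s` is not `⊥`, so it is maximal by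
`Ring.DimensionLEOne`), so it is artinian (`isArtinianRing_iff_isNoetherianRing_krullDimLE_zero`,
or a similar name). `M` is a finite `D ⧸ I`-module, so it is artinian and noetherian over `D ⧸ I`
and over `D` (the submodules are the same, `Module.length_eq_of_surjective` or
`isArtinian_of_tower`/`isArtinian_iff...`), and `Module.length_ne_top` applies. -/
theorem length_ne_top_of_torsion {D : Type u} [CommRing D] [IsDomain D] [IsNoetherianRing D]
    [Ring.DimensionLEOne D] {M : Type v} [AddCommGroup M] [Module D M] [Module.Finite D M] {s : D}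
    (hs : s ≠ 0) (h : ∀ m : M, s • m = 0) : Module.length D M ≠ ⊤ := by
  have hT : Module.IsTorsionBySet D M (Ideal.span {s} : Ideal D) :=
    (Module.isTorsionBySet_span_singleton_iff s).2 fun m => h m
  let : Module (D ⧸ Ideal.span {s}) M := hT.module
  have : IsScalarTower D (D ⧸ Ideal.span {s}) M := hT.isScalarTower
  have : Ring.KrullDimLE 0 (D ⧸ Ideal.span {s}) := by
    rw [Ideal.krullDimLE_zero_quotient_iff_forall_minimalPrimes_isMaximal]
    intro J hJ
    have h1 : J.IsPrime := hJ.1.1
    refine Ring.DimensionLEOne.maximalOfPrime ?_ h1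
    rintro rfl
    exact hs ((Submodule.mem_bot D).1 (hJ.1.2 (Ideal.subset_span rfl)))
  have : IsArtinianRing (D ⧸ Ideal.span {s}) :=
    isArtinianRing_iff_krullDimLE_zero.2 inferInstance
  have : Module.Finite (D ⧸ Ideal.span {s}) M := Module.Finite.of_restrictScalars_finite D _ M
  rw [Module.length_eq_of_surjective (R := D ⧸ Ideal.span {s}) Ideal.Quotient.mk_surjective]
  exact Module.length_ne_top

end Pool.Agent.NNO
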