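import Pool.Agent.NNO.Final
import Pool.Agent.NNO.CharZ
import Pool.Agent.NNO.Indep
import Pool.Agent.NFF.FunctionFields
import Pool.Agent.NRC.Main

set_option autoImplicit false

open FirstOrder FirstOrder.Language FirstOrder.Ring

universe u

/-- Let `K` be an NIP field, `L` a finite extension of `K` and `ℓ` a prime different from the
characteristic.
* If `A` is a noetherian subring of `L`, `L` is algebraic over its field of fractions and, for some
  `k`, no finite extension of the latter in `L` has a degree divisible by `ℓ ^ k`, then the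
  dimension of `A` is at most `1`.
* In a set of valuation rings of `L` any two of which generate the ring `L`, all but finitely many
  have an `ℓ`-divisible value group or a residue field in which every element is an `ℓ`-th power.
* If `A` is a Dedekind domain with fraction field `L`, then for all but finitely many maximal ideals
  `m` of `A` every element of `A / m` is an `ℓ`-th power.
* If `L` is generated by a subfield `F` and finitely many elements, which are not all algebraic
  over `F`, then the characteristic is `0`, `L` is finite over `F(u)` for some transcendental `u`,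
  and `F` is algebraically closed, or its algebraic closure has degree `2` over `F` and `-1` is a
  sum of squares in `L`. -/
theorem Pool.Agent.NNO.NoetherianDomainsOut.result
    (K : Type u) [Field K] [CompatibleRing K]
    (hK : ∀ (m k : ℕ) (φ : Language.ring.Formula (Fin m ⊕ Fin k)),
      ∃ n : ℕ, ∀ (a : Fin n → Fin m → K) (b : Finset (Fin n) → Fin k → K),
        ∃ (i : Fin n) (J : Finset (Fin n)),
          ¬ (φ.Realize (Sum.elim (a i) (b J)) ↔ i ∈ J))
    (L : Type u) [Field L] [Algebra K L] [FiniteDimensional K L] (ℓ : ℕ) (hℓ : ℓ.Prime)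
    (hℓK : (ℓ : K) ≠ 0) :
    (∀ A : Subring L, IsNoetherianRing A →
      Algebra.IsAlgebraic (Subfield.closure (A : Set L)) L →
      (∃ k : ℕ, ∀ M : IntermediateField (Subfield.closure (A : Set L)) L,
        FiniteDimensional (Subfield.closure (A : Set L)) M →
          ¬ ℓ ^ k ∣ Module.finrank (Subfield.closure (A : Set L)) M) →
      ringKrullDim A ≤ 1) ∧
    (∀ S : Set (ValuationSubring L), (∀ V ∈ S, ∀ W ∈ S, V ≠ W → V ⊔ W = ⊤) →
      {V ∈ S | (∃ a : IsLocalRing.ResidueField V, ∀ c, c ^ ℓ ≠ a) ∧
        ∃ x : L, ∀ c : L, V.valuation c ^ ℓ ≠ V.valuation x}.Finite) ∧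
    (∀ A : Subring L, IsDedekindDomain A → Subfield.closure (A : Set L) = ⊤ →
      {m : Ideal A | m.IsMaximal ∧ ∃ a : A, ∀ c : A, c ^ ℓ - a ∉ m}.Finite) ∧
    (∀ (F : Subfield L) (S : Finset L),
      Subfield.closure ((F : Set L) ∪ (S : Set L)) = ⊤ → (∃ x : L, Transcendental F x) →
      CharZero L ∧
        (∃ u : L, Transcendental F u ∧ FiniteDimensional (IntermediateField.adjoin F {u}) L) ∧
        (IsAlgClosed F ∨
          (Module.finrank F (AlgebraicClosure F) = 2 ∧ IsSumSq (-1 : L)))) := by
  let _ : CompatibleRing L := compatibleRingOfRing L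
  have hL : Pool.Agent.NIPFields.NIP L :=
    Pool.Agent.NIPFields.NIP.finite (K := K) hK (Module.finBasis K L)
  have hℓL : (ℓ : L) ≠ 0 := by
    intro h
    apply hℓK
    apply (algebraMap K L).injective
    rw [map_natCast, h, map_zero]
  refine ⟨fun A hA halg hk => ?_, fun S hS => Pool.Agent.NNO.finite_of_indep hL hℓ hℓL S hS,
    fun A hA hcl => ?_, fun F S hS hx => ?_⟩
  · obtain ⟨k, hk⟩ := hk
    exact not_lt.1 (Pool.Agent.NNO.no_dim_two (K := K) hK A hℓ hℓK hk)
  · obtain ⟨_, hfr⟩ := Pool.Agent.NNO.isFractionRing_closure A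
    have hfrac : IsFractionRing A L := by
      refine IsFractionRing.of_field A L fun z => ?_
      have hz : z ∈ Subfield.closure (A : Set L) := by
        rw [hcl]
        trivial
      obtain ⟨y, hy, w, hw, hz⟩ := Subfield.mem_closure_iff.1 hz
      rw [Subring.closure_eq] at hy hw
      exact ⟨⟨y, hy⟩, ⟨w, hw⟩, hz.symm⟩
    refine ((Pool.Agent.NNO.finite_ne_pow hL hℓ hℓL (A := A)).union
      (Set.finite_singleton ⊥)).subset ?_
    rintro m ⟨hm, hm'⟩
    by_cases h : m = ⊥
    · exact Or.inr h
    · exact Or.inl ⟨hm.isPrime, h, hm'⟩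
  · have h0 : CharZero L := Pool.Agent.NNO.charZero_of_fg hL F S hS hx
    have hF0 : CharZero F := (algebraMap F L).charZero
    obtain ⟨⟨u, hu, hfd⟩, h1⟩ := Pool.Agent.NFF.function_fields L hL F S hS hx
    refine ⟨h0, ⟨u, hu, hfd⟩, h1.imp_right fun h2 => ⟨h2, ?_⟩⟩
    exact Pool.Agent.NRC.isSumSq_neg_one (F := F) hL u hu h2
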