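import Pool.Agent.NNO.KB

/-!
# The residue field is finitely generated (package NNO-Res)
-/

set_option autoImplicit false

namespace Pool.Agent.NNO

universe u

/-- PROOF. `E` is a torsion free `D`-module of rank at most some natural number. Let `C = V` as a
`D`-submodule of `E`. By `length_le` the module `C / a C` has finite length, so it is finitely
generated (`Module.length_ne_top_iff`, `isFiniteLength_iff_isNoetherian_isArtinian`): there is a
finite `S ⊆ V` such that every `x ∈ V` is `∑ y ∈ S, c y * y + a * z` with `c y ∈ D`, `z ∈ V`; and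
`v (a z) ≤ v a < 1` because `a ∈ V` and `a⁻¹ ∉ V`. (Take `c y = 0` for `y ∉ S`.) -/
theorem exists_span {E : Type u} [Field E] (D : Subring E) [IsNoetherianRing D]
    [Ring.DimensionLEOne D] (hD : Module.rank D E < Cardinal.aleph0) (a : E) (haD : a ∈ D)
    (ha : a ≠ 0) (V : ValuationSubring E) (hV : ∀ x ∈ D, x ∈ V) (hav : a⁻¹ ∉ V) :
    ∃ S : Finset E, (∀ y ∈ S, y ∈ V) ∧ ∀ x ∈ V, ∃ c : E → E, (∀ y, c y ∈ D) ∧
      V.valuation (x - ∑ y ∈ S, c y * y) < 1 := by
  classical
  let C : Submodule D E :=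
    { carrier := {x | x ∈ V}
      add_mem' := fun hx hy => V.add_mem _ _ hx hy
      zero_mem' := V.zero_mem
      smul_mem' := fun d x hx => V.mul_mem _ _ (hV d d.2) hx }
  let a' : D := ⟨a, haD⟩
  have ha' : a' ≠ 0 := fun h => ha (congrArg Subtype.val h)
  obtain ⟨d, hd⟩ : ∃ d : ℕ, Module.rank D C ≤ d := by
    obtain ⟨d, hd⟩ := Cardinal.lt_aleph0.1 ((Submodule.rank_le C).trans_lt hD)
    exact ⟨d, hd.le⟩
  have h2 : Module.length D (D ⧸ Ideal.span {a'}) ≠ ⊤ := by
    refine length_ne_top_of_torsion ha' fun m => ?_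
    obtain ⟨m, rfl⟩ := Submodule.mkQ_surjective _ m
    rw [← map_smul, Submodule.mkQ_apply, Submodule.Quotient.mk_eq_zero]
    exact Ideal.mul_mem_right _ _ (Ideal.subset_span rfl)
  have h3 := length_le (C := C) hd ha'
  have h4 : Module.length D (C ⧸ LinearMap.range (LinearMap.lsmul D C a')) ≠ ⊤ :=
    ne_top_of_le_ne_top (WithTop.mul_ne_top (ENat.natCast_ne_top d) h2) h3
  have h5 : IsNoetherian D (C ⧸ LinearMap.range (LinearMap.lsmul D C a')) :=
    (isFiniteLength_iff_isNoetherian_isArtinian.1 (Module.length_ne_top_iff.1 h4)).1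
  obtain ⟨S0, hS0⟩ := (Module.Finite.fg_top :
    (⊤ : Submodule D (C ⧸ LinearMap.range (LinearMap.lsmul D C a'))).FG)
  choose g hg using Submodule.mkQ_surjective (LinearMap.range (LinearMap.lsmul D C a'))
  let S1 : Finset C := S0.image g
  have h6 : ∀ x : C, ∃ y ∈ Submodule.span D (S1 : Set C), ∃ w : C, x = y + a' • w := by
    intro x
    have h7 : Submodule.map (Submodule.mkQ (LinearMap.range (LinearMap.lsmul D C a')))
        (Submodule.span D (S1 : Set C)) = ⊤ := by
      rw [Submodule.map_span, ← hS0]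
      congr 1
      rw [Finset.coe_image, Set.image_image]
      simp only [hg, Set.image_id']
    have h8 : Submodule.mkQ (LinearMap.range (LinearMap.lsmul D C a')) x ∈
        Submodule.map (Submodule.mkQ (LinearMap.range (LinearMap.lsmul D C a')))
        (Submodule.span D (S1 : Set C)) := by
      rw [h7]; exact Submodule.mem_top
    obtain ⟨y, hy, hxy⟩ := h8
    rw [Submodule.mkQ_apply, Submodule.mkQ_apply, eq_comm, Submodule.Quotient.eq] at hxy
    obtain ⟨w, hw⟩ := hxy
    refine ⟨y, hy, w, ?_⟩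
    have hw' : a' • w = x - y := hw
    rw [hw', add_sub_cancel]
  have hva : V.valuation a < 1 := by
    refine lt_of_le_of_ne ((V.valuation_le_one_iff a).2 (hV a haD)) fun h => hav ?_
    rw [← V.valuation_le_one_iff, map_inv₀, h, inv_one]
  refine ⟨S1.image (fun y : C => (y : E)), ?_, ?_⟩
  · intro y hy
    obtain ⟨z, -, rfl⟩ := Finset.mem_image.1 hy
    exact z.2
  · intro x hx
    obtain ⟨y, hy, w, hw⟩ := h6 ⟨x, hx⟩
    obtain ⟨f, -, hf⟩ := Submodule.mem_span_finset.1 hy
    refine ⟨fun e => if h : e ∈ V then ((f ⟨e, h⟩ : D) : E) else 0, ?_, ?_⟩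
    · intro e
      dsimp only
      split_ifs
      · exact Subtype.property _
      · exact D.zero_mem
    · rw [Finset.sum_image (fun _ _ _ _ h => Subtype.ext h)]
      have h9 : ∑ z ∈ S1, (if h : (z : E) ∈ V then ((f ⟨z, h⟩ : D) : E) else 0) * (z : E) =
          (y : E) := by
        rw [← hf, Submodule.coe_sum]
        refine Finset.sum_congr rfl fun z _ => ?_
        rw [dif_pos (show (z : E) ∈ V from z.2)]
        rfl
      have h10 : x = (y : E) + a * (w : E) := congrArg Subtype.val hw
      rw [h9, h10, add_sub_cancel_left, map_mul]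
      exact mul_lt_one_of_lt_of_le hva ((V.valuation_le_one_iff _).2 w.2)

end Pool.Agent.NNO
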