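import Pool.Agent.NNO.KB

/-!
# Divisibility by powers in valuation rings is bounded (package NNO-Root)
-/

set_option autoImplicit false

namespace Pool.Agent.NNO

universe u

/-- PROOF. `E` is a torsion free `D`-module of rank at most some natural number `d`. Let `C = V` as
a `D`-submodule of `E`. By `length_le` the length of `C / a C` is at most `N = d * length (D / a
D)` (a natural number by `length_ne_top_of_torsion`). If `b ∈ V`, `b⁻¹ ∉ V`, let `g` be the
multiplication by `b` on `C` (`D`-linear, injective because `b ≠ 0`: `b⁻¹ ∉ V`); it is not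
surjective, so `1 ≤ length (C / b C)` and `n ≤ length (C / b ^ n C)` by `length_range_pow`. If `a
* b⁻¹ ^ n ∈ V`, then `a C ≤ b ^ n C`, so `length (C / b ^ n C) ≤ length (C / a C) ≤ N`
(`Module.length_le_of_surjective`). -/
theorem root_bound {E : Type u} [Field E] (D : Subring E) [IsNoetherianRing D]
    [Ring.DimensionLEOne D] (hD : Module.rank D E < Cardinal.aleph0) (a : E) (haD : a ∈ D)
    (ha : a ≠ 0) : ∃ N : ℕ, ∀ V : ValuationSubring E, (∀ x ∈ D, x ∈ V) → ∀ b ∈ V, b⁻¹ ∉ V →
      ∀ n : ℕ, a * b⁻¹ ^ n ∈ V → n ≤ N := by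
  obtain ⟨d, hd⟩ := Cardinal.lt_aleph0.1 hD
  obtain ⟨a', ha'⟩ : ∃ a' : D, a' = ⟨a, haD⟩ := ⟨_, rfl⟩
  have ha0 : a' ≠ 0 := by
    intro h
    apply ha
    have h1 := congrArg Subtype.val h
    rw [ha'] at h1
    exact h1
  have hlen : Module.length D (D ⧸ Ideal.span {a'}) ≠ ⊤ := by
    refine length_ne_top_of_torsion ha0 fun m => ?_
    obtain ⟨x, rfl⟩ := Submodule.mkQ_surjective _ m
    rw [← map_smul, smul_eq_mul, Submodule.mkQ_apply, Submodule.Quotient.mk_eq_zero]
    exact Ideal.mul_mem_right _ _ (Ideal.subset_span rfl)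
  obtain ⟨L, hL⟩ := ENat.ne_top_iff_exists.1 hlen
  refine ⟨d * L, fun V hV b hb hbi n hn => ?_⟩
  have hb0 : b ≠ 0 := by
    rintro rfl
    rw [inv_zero] at hbi
    exact hbi V.zero_mem
  let C : Submodule D E :=
    { carrier := {x | x ∈ V}
      add_mem' := fun hx hy => V.add_mem _ _ hx hy
      zero_mem' := V.zero_mem
      smul_mem' := fun c x hx => V.mul_mem _ _ (hV _ c.2) hx }
  have hC : ∀ x : E, x ∈ C ↔ x ∈ V := fun x => Iff.rfl
  let g : C →ₗ[D] C :=
    { toFun := fun x => ⟨b * (x : E), V.mul_mem _ _ hb x.2⟩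
      map_add' := fun x y => Subtype.ext (mul_add _ _ _)
      map_smul' := fun c x => Subtype.ext (by
        show b * ((c : E) * (x : E)) = (c : E) * (b * (x : E))
        ring) }
  have hgv : ∀ x : C, ((g x : C) : E) = b * (x : E) := fun x => rfl
  have hginj : Function.Injective g := by
    intro x y h
    have h1 : b * (x : E) = b * (y : E) := congrArg Subtype.val h
    exact Subtype.ext (mul_left_cancel₀ hb0 h1)
  have hgpow : ∀ (k : ℕ) (x : C), (((g ^ k) x : C) : E) = b ^ k * (x : E) := by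
    intro k
    induction k with
    | zero => intro x; rw [pow_zero, pow_zero, one_mul]; rfl
    | succ k ih =>
      intro x
      rw [pow_succ', Module.End.mul_apply, hgv, ih, pow_succ']
      ring
  have h1 : (1 : ℕ∞) ≤ Module.length D (C ⧸ LinearMap.range g) := by
    rw [Order.one_le_iff_ne_zero, Ne, Module.length_eq_zero_iff,
      Submodule.Quotient.subsingleton_iff, LinearMap.range_eq_top]
    intro hs
    obtain ⟨y, hy⟩ := hs ⟨1, V.one_mem⟩
    have h2 : b * (y : E) = 1 := congrArg Subtype.val hy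
    apply hbi
    rw [← eq_inv_of_mul_eq_one_right h2]
    exact y.2
  have h2 := length_range_pow g hginj n
  have hle : LinearMap.range (LinearMap.lsmul D C a') ≤ LinearMap.range (g ^ n) := by
    rintro _ ⟨x, rfl⟩
    refine ⟨⟨a * b⁻¹ ^ n * (x : E), V.mul_mem _ _ hn x.2⟩, Subtype.ext ?_⟩
    rw [hgpow]
    have h3 : ((LinearMap.lsmul D C a' x : C) : E) = a * (x : E) := by
      rw [ha']
      rfl
    rw [h3]
    show b ^ n * (a * b⁻¹ ^ n * (x : E)) = a * (x : E)
    have h4 : b ^ n * b⁻¹ ^ n = 1 := by rw [← mul_pow, mul_inv_cancel₀ hb0, one_pow]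
    calc b ^ n * (a * b⁻¹ ^ n * (x : E)) = (b ^ n * b⁻¹ ^ n) * (a * (x : E)) := by ring
      _ = a * (x : E) := by rw [h4, one_mul]
  have h3 : Module.length D (C ⧸ LinearMap.range (g ^ n)) ≤
      Module.length D (C ⧸ LinearMap.range (LinearMap.lsmul D C a')) :=
    Module.length_le_of_surjective (Submodule.factor hle) (Submodule.factor_surjective hle)
  have h4 : Module.length D (C ⧸ LinearMap.range (LinearMap.lsmul D C a')) ≤
      d * Module.length D (D ⧸ Ideal.span {a'}) :=
    length_le ((Submodule.rank_le C).trans hd.le) ha0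
  have h5 : (n : ℕ∞) ≤ ((d * L : ℕ) : ℕ∞) := by
    calc (n : ℕ∞) = n * 1 := (mul_one _).symm
      _ ≤ n * Module.length D (C ⧸ LinearMap.range g) := by gcongr
      _ = Module.length D (C ⧸ LinearMap.range (g ^ n)) := h2.symm
      _ ≤ d * Module.length D (D ⧸ Ideal.span {a'}) := h3.trans h4
      _ = ((d * L : ℕ) : ℕ∞) := by rw [← hL, Nat.cast_mul]
  exact_mod_cast h5

end Pool.Agent.NNO
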