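import Pool.Agent.NFF.NormTr
import Pool.Agent.NFF.Defs
import Pool.Agent.NIPFields.Shatter
import Pool.Agent.NIPFields.Pattern

/-!
# Transfer of norm patterns to algebraic extensions of degree prime to `ℓ`

`L / Q` is algebraic and all finite subextensions have degree prime to `ℓ`. An element of `Q` which is
a value of the norm form of `b ∈ Q` over `L` is one over `Q`. So the patterns of `exists_shatter` for
`Q` remain patterns for `L`.
-/

set_option autoImplicit false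

namespace Pool.Agent.NNO

open Polynomial Pool.Agent.NIPFields Pool.Agent.NIPFields.NA

universe u

private theorem mem_of_pow_Trans {K : Type u} [Field K] {ℓ : ℕ} (hℓ : ℓ.Prime) {d : ℕ}
    (hd : ¬ ℓ ∣ d) {c y : K} (h : y ^ d ∈ NS ℓ c) : y ∈ NS ℓ c := by
  have hne : NeZero ℓ := ⟨hℓ.ne_zero⟩
  by_cases hy : y = 0
  · rw [hy]
    exact zero_mem_NS c
  have hcop : Nat.Coprime d ℓ := ((Nat.Prime.coprime_iff_not_dvd hℓ).2 hd).symm
  obtain ⟨m, -, hm⟩ := Nat.exists_mul_mod_eq_one_of_coprime hcop hℓ.one_lt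
  obtain ⟨e, h1⟩ : ∃ e, d * m = e * ℓ + 1 := ⟨d * m / ℓ, by
    have h2 := Nat.div_add_mod (d * m) ℓ
    rw [mul_comm ℓ] at h2
    omega⟩
  have h2 : y = (y ^ d) ^ m * ((y⁻¹) ^ e) ^ ℓ := by
    rw [← pow_mul, h1, pow_succ, ← pow_mul (y⁻¹), mul_right_comm, ← mul_pow,
      mul_inv_cancel₀ hy, one_pow, one_mul]
  rw [h2]
  exact NS_mul' (NS_pow' h m) (pow_mem_NS c _)

/-- **Transfer lemma.** -/
theorem NS_of_algebraic {Q L : Type u} [Field Q] [Field L] [Algebra Q L]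
    [Algebra.IsAlgebraic Q L] {ℓ : ℕ} (hℓ : ℓ.Prime)
    (hdeg : ∀ M : IntermediateField Q L, FiniteDimensional Q M → ¬ ℓ ∣ Module.finrank Q M)
    (c y : Q) (h : algebraMap Q L y ∈ NS ℓ (algebraMap Q L c)) : y ∈ NS ℓ c := by
  have hne : NeZero ℓ := ⟨hℓ.ne_zero⟩
  obtain ⟨z, hz⟩ := h
  obtain ⟨M, hM⟩ : ∃ M, M = IntermediateField.adjoin Q (Set.range z) := ⟨_, rfl⟩
  have hfd : FiniteDimensional Q M := by
    rw [hM]
    exact IntermediateField.finiteDimensional_adjoin fun x _ =>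
      (Algebra.IsAlgebraic.isAlgebraic (R := Q) x).isIntegral
  have hzM : ∀ i, z i ∈ M := fun i => by
    rw [hM]
    exact IntermediateField.subset_adjoin Q _ ⟨i, rfl⟩
  have h1 : algebraMap Q M y ∈ NS ℓ (algebraMap Q M c) := by
    refine ⟨fun i => ⟨z i, hzM i⟩, ?_⟩
    apply (algebraMap M L).injective
    rw [nmat_map, ← IsScalarTower.algebraMap_apply Q M L, ← IsScalarTower.algebraMap_apply Q M L,
      hz]
    rfl
  exact mem_of_pow_Trans hℓ (hdeg M hfd) (NFF.pow_mem_NS_of_finite c y h1)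

/-- Patterns over `Q` are patterns over `L`. -/
theorem shatE_ext {Q L : Type u} [Field Q] [Field L] [Algebra Q L]
    [Algebra.IsAlgebraic Q L] {ℓ : ℕ} (hℓ : ℓ.Prime)
    (hdeg : ∀ M : IntermediateField Q L, FiniteDimensional Q M → ¬ ℓ ∣ Module.finrank Q M)
    {n : ℕ} (h : ShatE ℓ Q n) : ShatE ℓ L n := by
  obtain ⟨t, x, h1⟩ := h
  refine ⟨fun i => algebraMap Q L (t i), fun J => algebraMap Q L (x J), fun i J => ?_⟩
  rw [← h1 i J]
  refine ⟨NS_of_algebraic hℓ hdeg _ _, fun h2 => ?_⟩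
  exact NSR_map (algebraMap Q L) h2

/-- Independent valuation rings of `Q` give patterns over `L`. -/
theorem shatE_of_valuations {Q L : Type u} [Field Q] [Field L] [Algebra Q L]
    [Algebra.IsAlgebraic Q L] {ℓ : ℕ} (hℓ : ℓ.Prime)
    (hdeg : ∀ M : IntermediateField Q L, FiniteDimensional Q M → ¬ ℓ ∣ Module.finrank Q M)
    (ζ : Q) (hζ : IsPrimitiveRoot ζ ℓ) (n : ℕ) (V : Fin n → ValuationSubring Q)
    (hind : ∀ i j, i ≠ j → V i ⊔ V j = ⊤)
    (hch : ∀ i, (ℓ : IsLocalRing.ResidueField (V i)) ≠ 0)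
    (hres : ∀ i, ∃ a : IsLocalRing.ResidueField (V i), ∀ c, c ^ ℓ ≠ a)
    (hval : ∀ i, ∃ γ : (V i).ValueGroup, γ ≠ 0 ∧ ∀ δ, δ ^ ℓ ≠ γ) : ShatE ℓ L n := by
  have : Fact ℓ.Prime := ⟨hℓ⟩
  refine shatE_ext hℓ hdeg ?_
  refine exists_shatter ζ hζ n V hind (fun i => ?_) hres hval
  have hunit : IsUnit (ℓ : V i) := by
    by_contra hu
    apply hch i
    have h1 : IsLocalRing.residue (V i) (ℓ : V i) = 0 := by
      rw [IsLocalRing.residue_eq_zero_iff]
      exact hu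
    simpa using h1
  have := ((V i).valuation_eq_one_iff _).1 hunit
  simpa using this

end Pool.Agent.NNO
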