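import Pool.Agent.NNO.Root
import Pool.Agent.NNO.Loc

/-!
# The value group (package NNO-XA)
-/

set_option autoImplicit false

namespace Pool.Agent.NNO

universe u

/-- PROOF. `D` from `exists_loc`; it is contained in `V` (`v (f s) = 1` for `s ∉ q`, because `f s ∈
V` and not `v (f s) < 1`). Choose `a ∈ q` with `f a ≠ 0` (`ker f < q`) and `N` from `root_bound D
.. (f a)`. Suppose every `π ≠ 0` has `v π = v c ^ ℓ` for some `c` (then `c ≠ 0`). By induction on
`k` there is `b ≠ 0` with `v (f a) = v b ^ (ℓ ^ k)`. As `v (f a) < 1`, `v b < 1`, so `b ∈ V` and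
`b⁻¹ ∉ V`; and `v (f a * b⁻¹ ^ (ℓ ^ k)) = 1`. So `ℓ ^ k ≤ N` for all `k`, a contradiction
(`Nat.lt_pow_self`). -/
theorem exists_val_ne_pow {A : Type u} [CommRing A] [IsNoetherianRing A] {E : Type u} [Field E]
    (f : A →+* E) (hf : FinOver f) (q : Ideal A) [q.IsPrime] (hq : Cov (RingHom.ker f) q)
    (V : ValuationSubring E) (hV : Dmt f q V) (ℓ : ℕ) (hℓ : 2 ≤ ℓ) :
    ∃ π : E, π ≠ 0 ∧ ∀ c : E, V.valuation π ≠ V.valuation c ^ ℓ := by
  obtain ⟨D, _, _, hrk, h1, h2, h3⟩ := exists_loc f hf q hq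
  have hone : ∀ s, s ∉ q → V.valuation (f s) = 1 := fun s hs =>
    le_antisymm ((V.valuation_le_one_iff _).2 (hV s).1) (not_lt.1 fun h => hs ((hV s).2.1 h))
  have hDV : ∀ x ∈ D, x ∈ V := by
    intro x hx
    obtain ⟨a, s, hs, rfl⟩ := h3 x hx
    rw [← V.valuation_le_one_iff, map_mul, map_inv₀, hone s hs, inv_one, mul_one,
      V.valuation_le_one_iff]
    exact (hV a).1
  obtain ⟨a, ha, ha'⟩ := SetLike.exists_of_lt hq.1
  have ha0 : f a ≠ 0 := fun h => ha' (RingHom.mem_ker.2 h)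
  obtain ⟨N, hN⟩ := root_bound D hrk (f a) (h1 a) ha0
  have hva : V.valuation (f a) < 1 := (hV a).2.2 ha
  by_contra hcon
  push Not at hcon
  have key : ∀ k : ℕ, ∃ b : E, b ≠ 0 ∧ V.valuation (f a) = V.valuation b ^ (ℓ ^ k) := by
    intro k
    induction k with
    | zero => exact ⟨f a, ha0, by rw [pow_zero, pow_one]⟩
    | succ k ih =>
      obtain ⟨b, hb0, hb⟩ := ih
      obtain ⟨c, hc⟩ := hcon b hb0
      refine ⟨c, ?_, by rw [hb, hc, ← pow_mul, pow_succ, mul_comm]⟩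
      rintro rfl
      rw [map_zero, zero_pow (by omega)] at hc
      exact hb0 ((Valuation.zero_iff _).1 hc)
  obtain ⟨b, hb0, hb⟩ := key N
  have hpos : ℓ ^ N ≠ 0 := pow_ne_zero _ (by omega)
  have hb1 : V.valuation b < 1 := by
    by_contra h
    exact absurd hva (not_lt.2 (by rw [hb]; exact one_le_pow₀ (not_lt.1 h)))
  have hvb : V.valuation b ≠ 0 := (Valuation.ne_zero_iff _).2 hb0
  have h4 := hN V hDV b ((V.valuation_le_one_iff _).1 hb1.le) (fun h => by
    rw [← V.valuation_le_one_iff, map_inv₀, inv_le_one₀ ((Valuation.pos_iff _).2 hb0)] at h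
    exact absurd hb1 (not_lt.2 h)) (ℓ ^ N) (by
      rw [← V.valuation_le_one_iff, map_mul, map_pow, map_inv₀, hb, inv_pow,
        mul_inv_cancel₀ (pow_ne_zero _ hvb)])
  exact absurd h4 (not_le.2 (Nat.lt_pow_self (by omega)))

end Pool.Agent.NNO
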